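import Mathlib
import Pool.Agent.H67.HF.Defs2
import Pool.Agent.H6.Glue

/-!
# MP_103a5c_AH (rigidity at the barrier `1/2`): common definitions

THEOREM.  Assume RH.  Let `FF ≤ atTop` be a filter with `N(T;0,b) ~ norm T` along `FF` for every `0 < b < 1/2`.  Then, along `FF`,
`N(T;a,b) / norm T` tends to the value predicted by the Alternative Hypothesis for all `a < b` with `2a, 2b` not integers.
Proof: /team-store/H68_rigidity.md (helper29, helper68), with helper92's polynomial approximation of the Cayley transform.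

Scaling: `L = log T`; the mean spacing is `2π/L`; a shift by `s` mean spacings is `t ↦ t + 2πs/L`.  The window is
`(t - h, t + h)`, `h = πδ/L`, of length `δ` mean spacings, `δ < 1/2`.
-/

open MeasureTheory Set Filter Topology
open scoped Real ContDiff ComplexConjugate

namespace Pool.Agent.H68.AH

open Pool.Agent Pool.Agent.H6 Pool.Agent.H14.GP Pool.Agent.H24.HF Pool.Agent.H67.HF

/-- The hypothesis of the theorem along the filter `FF`. -/
structure Hyp (FF : Filter ℝ) : Prop where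
  le : FF ≤ atTop
  tend : ∀ b : ℝ, 0 < b → b < 1 / 2 → Tendsto (fun T => PC.pairCount T 0 b / PC.norm T) FF (𝓝 1)

/-- `S T` occupies at most the proportion `p` (relative to `T`) of `[αT, βT]`, for all `T` along `FF`. -/
def Rare (FF : Filter ℝ) (α β p : ℝ) (S : ℝ → Set ℝ) : Prop :=
  ∀ᶠ T in FF, volume.real (S T ∩ Icc (α * T) (β * T)) ≤ p * T

/-- The window of band `D` obtained from a fixed window `χ₁` of band `1`. -/
noncomputable def win (χ₁ : ℝ → ℝ) (D u : ℝ) : ℝ := χ₁ (u / D)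

/-- The (complex, holomorphic) count of zeros in the window of length `δ`: `n(t) = δ - 2 P(t)`, band `D`. -/
noncomputable def nD (χ₁ : ℝ → ℝ) (δ D T t : ℝ) : ℂ := (δ : ℂ) - 2 * PP1 (win χ₁ D) δ D T t

/-- `V = exp (iπ (n - 1/2))` -/
noncomputable def VV (χ₁ : ℝ → ℝ) (δ D T t : ℝ) : ℂ := Complex.exp (Complex.I * π * (nD χ₁ δ D T t - 1 / 2))

/-- `log |V(t)| = Rr(t + h) - Rr(t - h)`; `Rr = Re ∑_p χ(log p/log T) p^(-1/2-it)` -/
noncomputable def Rr (χ₁ : ℝ → ℝ) (D T t : ℝ) : ℝ := (ev t (bbW (win χ₁ D) D T)).re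

/-- Cells for `θ = 1` (to be dilated by `θ < 1`), with lower cut off `1/(20 M)` and mean value `1/j + O(1/j²)`. -/
structure Cell0 (M : ℕ) (G : ℕ → ℝ → ℝ) : Prop where
  M_pos : 2 ≤ M
  smooth : ∀ j, ContDiff ℝ ∞ (G j)
  nonneg : ∀ j x, 0 ≤ G j x
  low : ∀ j x, x ≤ 1 / (20 * (M : ℝ)) → G j x = 0
  cell : ∀ j x, G j x ≠ 0 → ((j : ℝ) - 1) / M < x ∧ x < j / M
  out : ∀ j, (j < 1 ∨ M ≤ j) → ∀ x, G j x = 0
  norm : ∀ j, 1 ≤ j → j < M → ∫ x in Ioi (0 : ℝ), G j x ^ 2 / x = 1 / (j : ℝ)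
  mean : ∀ j, 1 ≤ j → j < M → |(∫ x in Ioi (0 : ℝ), G j x / x) - 1 / (j : ℝ)| ≤ 4 / (j : ℝ) ^ 2

/-- Dilated cells: `Cell0 M G → Cells1 M θ (cG θ G)` for `0 < θ < 1`. -/
noncomputable def cG (θ : ℝ) (G : ℕ → ℝ → ℝ) (j : ℕ) (x : ℝ) : ℝ := G j (x / θ)

/-- Cells at height `y` (in mean spacings): `B_j(t - 2πiy/L)` has the test function `G_j(x) e^{-2πxy}`. -/
noncomputable def hG (y : ℝ) (G : ℕ → ℝ → ℝ) (j : ℕ) (x : ℝ) : ℝ := G j x * Real.exp (-(2 * π * x * y))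

/-- `C(t) = ∑_{k<M} h_k(t)` (no twist) -/
noncomputable def CT (M : ℕ) (G : ℕ → ℝ → ℝ) (T t : ℝ) : ℂ := ∑ k ∈ Finset.range M, hh G T t k

/-- the height -/
noncomputable def yy (M : ℕ) : ℝ := Real.log M ^ 3

/-- the low band: cells `j ≤ JJ M` -/
noncomputable def JJ (M : ℕ) : ℕ := ⌊(M : ℝ) / (20 * Real.log M)⌋₊

/-- the size of the low band field that we use -/
noncomputable def lam (M : ℕ) : ℝ := Real.log M ^ (9 / 20 : ℝ)

/-- length of the chain `t + kδ`, `|k| ≤ KK M` -/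
noncomputable def KK (M : ℕ) : ℕ := ⌈Real.log M ^ 5⌉₊

/-- the low band field `X(t) = Re ∑_{j ≤ J} B_j(t - iy)` -/
noncomputable def XX (M : ℕ) (G : ℕ → ℝ → ℝ) (T t : ℝ) : ℝ :=
  (∑ j ∈ Finset.range (JJ M + 1), ev t (bb (hG (yy M) G j) T)).re

/-- the value predicted by the Alternative Hypothesis for the pairs at distance `k/2` mean spacings -/
noncomputable def mAH (k : ℤ) : ℝ := if k = 0 then 1 else 1 / 2 * (1 - (Real.sin (π * k / 2) / (π * k / 2)) ^ 2)

/-- the predicted number of pairs with distance in `[a, b]` -/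
noncomputable def predAH (a b : ℝ) : ℝ := ∑ᶠ k ∈ {k : ℤ | a ≤ (k : ℝ) / 2 ∧ (k : ℝ) / 2 ≤ b}, mAH k

end Pool.Agent.H68.AH
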