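import Mathlib
import Pool.Agent.H68.AH.Defs

/-!
# MP_103a5c_AH: the interface statements as propositions (so that assemblies can be compiled before the blocks are finished)
-/

open MeasureTheory Set Filter Topology
open scoped Real ContDiff ComplexConjugate

namespace Pool.Agent.H68.AH

open Pool.Agent Pool.Agent.H6 Pool.Agent.H14.GP Pool.Agent.H24.HF Pool.Agent.H67.HF

/-- statement S1 of Iface -/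
def S1P (χ₁ : ℝ → ℝ) : Prop := ∃ K₀ : ℝ, 0 < K₀ ∧
    ∀ (M : ℕ) (G : ℕ → ℝ → ℝ), Cell0 M G → ∃ η : ℝ, 0 < η ∧ η ≤ 1 / 4 ∧
      ∀ θ δ : ℝ, 1 - η < θ → θ < 1 → 1 / 2 - η < δ → δ < 1 / 2 → ∃ D₀ : ℝ, 1 ≤ D₀ ∧ ∀ D, D₀ ≤ D →
        ∀ FF : Filter ℝ, Hyp FF → ∀ α β : ℝ, 0 < α → α < β → β < 1 → ∀ Λ : ℝ, 0 < Λ →
          Rare FF α β (K₀ * Real.log (M + 1) / Λ ^ 2) (fun T => {t | Λ * (1 + ‖VV χ₁ δ D T t‖) <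
            ‖VV χ₁ δ D T t * CT M (cG θ G) T (t + π * δ / Real.log T) - CT M (cG θ G) T (t - π * δ / Real.log T)‖})

/-- statement norm_VV of Iface -/
def NVP (χ₁ : ℝ → ℝ) : Prop := ∀ δ D T t : ℝ, 1 < T → 1 ≤ D →
    ‖VV χ₁ δ D T t‖ = Real.exp (Rr χ₁ D T (t + π * δ / Real.log T) - Rr χ₁ D T (t - π * δ / Real.log T))

/-- statement P4 of Iface -/
def P4P (χ₁ : ℝ → ℝ) : Prop := ∃ K₁ : ℝ, 0 < K₁ ∧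
    ∀ D : ℝ, 1 ≤ D → ∀ FF : Filter ℝ, Hyp FF → ∀ α β : ℝ, 0 < α → α < β → β < 1 → ∀ s Λ : ℝ, 0 < Λ →
      Rare FF α β (K₁ * (1 + Real.log (1 + |s|)) ^ 8 / Λ ^ 16)
        (fun T => {t | Λ < |Rr χ₁ D T (t + 2 * π * s / Real.log T) - Rr χ₁ D T t|})

/-- statement T1 of Iface -/
def T1P (χ₁ : ℝ → ℝ) : Prop := ∀ δ : ℝ, 1 / 4 < δ → δ < 1 / 2 → ∀ ε p : ℝ, 0 < ε → 0 < p →
    ∃ D₀ : ℝ, 1 ≤ D₀ ∧ ∀ D, D₀ ≤ D → ∀ FF : Filter ℝ, Hyp FF →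
      ∀ α β : ℝ, 0 < α → α < β → β < 1 →
        Rare FF α β p (fun T => {t | (∀ i : PC.Z, π * δ / Real.log T ≤ |t - gZ i|) ∧ ε < |(nD χ₁ δ D T t).re|})

/-- statement P1 of Iface -/
def P1P : Prop := ∃ (K₂ : ℝ) (M₀ : ℕ), 0 < K₂ ∧ ∀ (M : ℕ) (G : ℕ → ℝ → ℝ), M₀ ≤ M → Cell0 M G →
    ∀ θ : ℝ, 1 / 2 < θ → θ < 1 → ∀ α β : ℝ, 0 < α → α < β → β < 1 →
      Rare atTop α β (K₂ / Real.log M) (fun T => {t | 0 ≤ -XX M (cG θ G) T t ∧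
        ‖CT M (hG (yy M) (cG θ G)) T t‖ < Real.exp (-XX M (cG θ G) T t) / 2})

/-- statement Ksamp of Iface -/
def KsP : Prop := ∃ (K₃ : ℝ) (M₀ : ℕ), 0 < K₃ ∧ ∀ (M : ℕ) (G : ℕ → ℝ → ℝ), M₀ ≤ M → Cell0 M G →
    ∀ θ δ : ℝ, 1 / 2 < θ → θ < 1 → 1 / 4 < δ → δ < 1 / 2 → ∀ α β : ℝ, 0 < α → α < β → β < 1 →
      Rare atTop α β (K₃ / M) (fun T => {t | ∃ A : ℝ,
        (∀ k : ℤ, |k| ≤ KK M → ‖CT M (cG θ G) T (t + 2 * π * (k * δ) / Real.log T)‖ ≤ A) ∧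
        K₃ * Real.log M * A + 1 < ‖CT M (hG (yy M) (cG θ G)) T t‖})

/-- statement PS of Iface -/
def PSP : Prop := ∃ (p : ℕ → ℝ) (M₀ : ℕ), Tendsto p atTop (𝓝 0) ∧
    ∀ (M : ℕ) (G : ℕ → ℝ → ℝ), M₀ ≤ M → Cell0 M G → ∃ η : ℝ, 0 < η ∧ η ≤ 1 / 4 ∧ ∀ θ : ℝ, 1 - η < θ → θ < 1 →
      ∀ FF : Filter ℝ, Hyp FF → ∀ α β : ℝ, 0 < α → α < β → β < 1 →
        Rare FF α β (p M) (fun T => {t | lam M ≤ -XX M (cG θ G) T t ∧ ‖CT M (cG θ G) T t‖ < Real.exp (lam M / 5)})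

/-- statement MS of Iface -/
def MSP : Prop := ∃ (K₄ : ℝ) (M₀ : ℕ), 0 < K₄ ∧ ∀ (r : ℕ) (Ms : ℕ → ℕ) (Gs : ℕ → ℕ → ℝ → ℝ), 0 < r → (∀ i, M₀ ≤ Ms i) →
    (∀ i, Real.exp (Ms i) ≤ Ms (i + 1)) → (∀ i, Cell0 (Ms i) (Gs i)) → ∀ θ : ℝ, 1 / 2 < θ → θ < 1 →
      ∀ α β : ℝ, 0 < α → α < β → β < 1 →
        Rare atTop α β (K₄ / r) (fun T => {t | ∀ i < r, -XX (Ms i) (cG θ (Gs i)) T t < lam (Ms i)})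

end Pool.Agent.H68.AH
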