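import Mathlib
import Pool.Agent.H68.AH.Defs

/-!
# MP_103a5c_AH, row AHRa: calculus of rare sets

`Rare FF α β p S` : eventually along `FF`, `volume.real (S T ∩ Icc (αT) (βT)) ≤ p T`.
PROOFS.  `volume (Icc ..) < ∞`, so `measureReal_mono` applies to subsets of `Icc` (no measurability is needed anywhere: outer measure).
* `mono`: `S T ∩ Icc ⊆ S' T ∩ Icc`; `p ≤ p'` and `T > 0` eventually (`FF ≤ atTop`).
* `union`: `measureReal_union_le`, `Set.union_inter_distrib_right`.
* `biUnion`: `measureReal_biUnion_finset_le` (or induction on the finset from `union`; empty case: `volume.real ∅ = 0`).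
* `of_le`: `Filter.Eventually.filter_mono`.
* `sub`: a smaller interval.  `Icc (α T) (β T) ⊆ Icc (α' T) (β' T)` for `T ≥ 0`.
* `shift`: `{t | t + s / log T ∈ S T} ∩ Icc (αT) (βT) ⊆ (fun t => t + s / log T) ⁻¹' (S T ∩ Icc (α'T) (β'T))` as soon as `|s / log T| ≤ min (α - α') (β' - β) * T`
  (true eventually: `log T ≥ 1`, `T → ∞`); the measure of the preimage is that of the set: `measure_preimage_add_right` (valid for every set).
-/

/-!
# MP_103a5c_AH, row AHRa: calculus of rare sets
-/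

open MeasureTheory Set Filter Topology
open scoped Real

namespace Pool.Agent.H68.AH

private theorem AHRa_fin (S : Set ℝ) (a b : ℝ) : volume (S ∩ Icc a b) ≠ ⊤ := by
  have h1 : volume (S ∩ Icc a b) ≤ volume (Icc a b) := measure_mono inter_subset_right
  refine ne_top_of_le_ne_top ?_ h1
  rw [Real.volume_Icc]
  exact ENNReal.ofReal_ne_top

theorem Rare.mono {FF : Filter ℝ} (hF : FF ≤ atTop) {α β p p' : ℝ} {S S' : ℝ → Set ℝ} (h : Rare FF α β p' S') (hp : p' ≤ p)
    (hS : ∀ᶠ T in FF, S T ∩ Icc (α * T) (β * T) ⊆ S' T) : Rare FF α β p S := by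
  unfold Rare at h ⊢
  have h0 : ∀ᶠ T in FF, (0 : ℝ) ≤ T := (eventually_ge_atTop 0).filter_mono hF
  filter_upwards [h, hS, h0] with T h1 h2 h3
  refine le_trans (measureReal_mono (μ := volume) (s₂ := S' T ∩ Icc (α * T) (β * T)) ?_
    (AHRa_fin _ _ _)) (h1.trans (mul_le_mul_of_nonneg_right hp h3))
  exact subset_inter h2 inter_subset_right

theorem Rare.union {FF : Filter ℝ} {α β p q : ℝ} {S S' : ℝ → Set ℝ} (h : Rare FF α β p S) (h' : Rare FF α β q S') :
    Rare FF α β (p + q) (fun T => S T ∪ S' T) := by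
  unfold Rare at h h' ⊢
  filter_upwards [h, h'] with T h1 h2
  rw [union_inter_distrib_right, add_mul]
  exact (measureReal_union_le _ _).trans (add_le_add h1 h2)

theorem Rare.biUnion {FF : Filter ℝ} {α β : ℝ} {ι : Type*} (s : Finset ι) {p : ι → ℝ} {S : ι → ℝ → Set ℝ}
    (h : ∀ i ∈ s, Rare FF α β (p i) (S i)) : Rare FF α β (∑ i ∈ s, p i) (fun T => ⋃ i ∈ s, S i T) := by
  classical
  induction s using Finset.induction_on with
  | empty =>
    unfold Rare
    refine Eventually.of_forall fun T => ?_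
    have h1 : (⋃ i ∈ (∅ : Finset ι), S i T) = ∅ := by simp
    show volume.real ((⋃ i ∈ (∅ : Finset ι), S i T) ∩ Icc (α * T) (β * T)) ≤ _
    rw [h1, empty_inter, Finset.sum_empty, zero_mul]
    exact le_of_eq (by simp)
  | insert a s ha ih =>
    have h1 := ih (fun i hi => h i (Finset.mem_insert_of_mem hi))
    have h2 := h a (Finset.mem_insert_self a s)
    have h3 := h2.union h1
    rw [Finset.sum_insert ha]
    have h4 : (fun T => ⋃ i ∈ insert a s, S i T) = fun T => S a T ∪ ⋃ i ∈ s, S i T := by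
      funext T
      exact Finset.set_biUnion_insert a s (fun i => S i T)
    rw [h4]
    exact h3

theorem Rare.of_le {FF GG : Filter ℝ} (hF : FF ≤ GG) {α β p : ℝ} {S : ℝ → Set ℝ} (h : Rare GG α β p S) : Rare FF α β p S :=
  Eventually.filter_mono hF h

theorem Rare.sub {FF : Filter ℝ} (hF : FF ≤ atTop) {α β α' β' p : ℝ} (h1 : α' ≤ α) (h2 : β ≤ β') {S : ℝ → Set ℝ}
    (h : Rare FF α' β' p S) : Rare FF α β p S := by
  unfold Rare at h ⊢
  have h0 : ∀ᶠ T in FF, (0 : ℝ) ≤ T := (eventually_ge_atTop 0).filter_mono hF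
  filter_upwards [h, h0] with T h3 h4
  refine le_trans (measureReal_mono (μ := volume) (s₂ := S T ∩ Icc (α' * T) (β' * T)) ?_
    (AHRa_fin _ _ _)) h3
  exact inter_subset_inter_right _ (Icc_subset_Icc (mul_le_mul_of_nonneg_right h1 h4)
    (mul_le_mul_of_nonneg_right h2 h4))

theorem Rare.shift {FF : Filter ℝ} (hF : FF ≤ atTop) {α β α' β' p : ℝ} (h1 : α' < α) (h2 : β < β') {S : ℝ → Set ℝ}
    (h : Rare FF α' β' p S) (s : ℝ) : Rare FF α β p (fun T => {t | t + s / Real.log T ∈ S T}) := by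
  unfold Rare at h ⊢
  have h0 : ∀ᶠ T in FF, Real.exp 1 ≤ T := (eventually_ge_atTop _).filter_mono hF
  have h5 : ∀ᶠ T in FF, |s| / (α - α') ≤ T := (eventually_ge_atTop _).filter_mono hF
  have h6 : ∀ᶠ T in FF, |s| / (β' - β) ≤ T := (eventually_ge_atTop _).filter_mono hF
  filter_upwards [h, h0, h5, h6] with T h3 h4 h7 h8
  have hT : 0 < T := lt_of_lt_of_le (Real.exp_pos 1) h4
  have hlog : 1 ≤ Real.log T := by
    rw [Real.le_log_iff_exp_le hT]
    exact h4
  have hs : |s / Real.log T| ≤ |s| := by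
    rw [abs_div, abs_of_pos (by linarith : 0 < Real.log T)]
    exact div_le_self (abs_nonneg s) hlog
  rw [div_le_iff₀ (by linarith)] at h7 h8
  have hsub : {t | t + s / Real.log T ∈ S T} ∩ Icc (α * T) (β * T) ⊆
      (fun t => t + s / Real.log T) ⁻¹' (S T ∩ Icc (α' * T) (β' * T)) := by
    rintro t ⟨ht1, ht2, ht3⟩
    have h9 := abs_le.1 (hs.trans (le_refl |s|))
    refine ⟨ht1, ?_, ?_⟩
    · show α' * T ≤ t + s / Real.log T
      nlinarith [h9.1]
    · show t + s / Real.log T ≤ β' * T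
      nlinarith [h9.2]
  have hm : volume ((fun t => t + s / Real.log T) ⁻¹' (S T ∩ Icc (α' * T) (β' * T))) =
      volume (S T ∩ Icc (α' * T) (β' * T)) := measure_preimage_add_right volume _ _
  have hm' : volume.real ((fun t => t + s / Real.log T) ⁻¹' (S T ∩ Icc (α' * T) (β' * T))) =
      volume.real (S T ∩ Icc (α' * T) (β' * T)) := by
    unfold Measure.real
    rw [hm]
  rw [← hm'] at h3
  refine le_trans (measureReal_mono (μ := volume) hsub ?_) h3
  rw [hm]
  exact AHRa_fin _ _ _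

end Pool.Agent.H68.AH
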