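import Mathlib
import Pool.Agent.H68.AH.Defs
import Pool.Agent.H87.AH.J3
import Pool.Agent.H68.HF.Mean

/-!
# MP_103a5c_AH, row AHRc: `C(t)` as a Dirichlet polynomial `DS S d t` with `d 1 = 1`

Put `G' = cG θ G` (cells for `θ < 1`, `G'_j` supported in `θ(j-1)/M < x < θj/M`, zero for `j = 0` and `j ≥ M`), `T > 1`,
`X = ∑_{k<M} cf (-1) (fun j => bb (G' j) T) k ∈ DPoly`.
PROOF.  (1) `CT M G' T t = ev t X`: `ev t` is an algebra homomorphism and `cf` commutes with algebra homomorphisms (strong induction with the recursion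
`cf c y (n+1) = (c/(n+1)) • ∑ ..`; there is such a lemma in H14/GP or H68/HF/Mean, e.g. used for `hh_eq`).
(2) `ev t X = ∑_{n ∈ supp X} X(n) chi t n`, `chi t n = exp (-(t log n) i)` for `n ≠ 0` (`MonoidAlgebra.lift_apply`); this is `DS supp X t` since the summand of `DS` is
`d n * exp (-((log n) z) i)`.
(3) support: `bb (G' j) T` is supported on primes `p` with `log p / log T < θ j / M`, i.e. `log p ≤ (θ j/M) log T`; by strong induction on `k` every `n` in the support of
`cf (-1) y k` satisfies `n ≥ 1` and `log n ≤ (θ k / M) log T` (a product `X Y` is supported on products `m n`; `log (mn) = log m + log n`; `j + (n - j)` weights add).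
So for `k < M` the support of `X` is contained in `Icc 1 ⌊T^θ⌋₊` (`log n ≤ θ log T` iff `n ≤ T^θ`), and `d n := X(n)` works (zero outside the support).
(4) `d 1 = 1`: `k = 0` gives the unit `[1]`, coefficient `1`; for `k ≥ 1` every `n` in the support of `cf (-1) y k` is `≥ 2` (same induction: each term contains a factor supported on
primes, the other factor on `n ≥ 1`), so the coefficient at `1` is `0`.
(5) `∑ |d n| ≤ exp (c log T)`: `l1` is submultiplicative and subadditive (H14/GP has such lemmas); `l1 (bb (G' j) T) ≤ B (T + 1)` with `B` a bound of all `|G_j|`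
(`G_j` continuous with compact support in `[1/(20M), 1]`, finitely many `j`); by induction `l1 (cf (-1) y k) ≤ K_k T^k` for `T ≥ 2`; hence `l1 X ≤ K T^M ≤ exp ((M+1) log T)` for
`T` large.
-/

open MeasureTheory Set Filter Topology
open scoped Real ContDiff ComplexConjugate

namespace Pool.Agent.H68.AH

open Pool.Agent.H14.GP Pool.Agent.H24.HF Pool.Agent.H67.HF

/-- `Cell0` cells, dilated by `θ < 1`, are cells in the sense of HalfGaps. -/
theorem Cell0.cells1 {M : ℕ} {G : ℕ → ℝ → ℝ} (hG : Cell0 M G) {θ : ℝ} (h0 : 0 < θ) (h1 : θ < 1) : Cells1 M θ (cG θ G) := by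
  have hM : (0 : ℝ) < M := by
    have := hG.M_pos
    exact_mod_cast (by omega : 0 < M)
  refine ⟨hG.M_pos, h0, h1, ?_, ?_, ?_, ?_, ?_, ?_⟩
  · intro j
    exact (hG.smooth j).comp (contDiff_id.div_const θ)
  · intro j x
    exact hG.nonneg j _
  · refine ⟨θ / (20 * M), by positivity, fun j x hx => hG.low j _ ?_⟩
    rw [div_le_iff₀ h0]
    calc x ≤ θ / (20 * M) := hx
      _ = 1 / (20 * M) * θ := by ring
  · intro j x hx
    have h := hG.cell j (x / θ) hx
    constructor
    · have h2 := h.1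
      rw [lt_div_iff₀ h0] at h2
      calc θ * ((j : ℝ) - 1) / M = ((j : ℝ) - 1) / M * θ := by ring
        _ < x := h2
    · have h2 := h.2
      rw [div_lt_iff₀ h0] at h2
      calc x < (j : ℝ) / M * θ := h2
        _ = θ * j / M := by ring
  · intro j hj x
    exact hG.out j hj _
  · intro j hj1 hj2
    have h := MeasureTheory.integral_comp_mul_left_Ioi (fun u : ℝ => G j u ^ 2 / u) 0 (b := 1 / θ) (by positivity)
    have e : (fun x : ℝ => (fun u : ℝ => G j u ^ 2 / u) (1 / θ * x)) = fun x => θ * (cG θ G j x ^ 2 / x) := by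
      funext x
      unfold cG
      simp only
      rw [show 1 / θ * x = x / θ by ring]
      by_cases hx : x = 0
      · subst hx
        simp
      · field_simp
    rw [e, mul_zero, MeasureTheory.integral_const_mul, hG.norm j hj1 hj2, smul_eq_mul] at h
    have hθ : θ ≠ 0 := h0.ne'
    have e2 : (1 / θ)⁻¹ = θ := by field_simp
    rw [e2] at h
    exact mul_left_cancel₀ hθ h

/-- continuous functions with support in a bounded interval are bounded -/
private lemma ahrc_bound {M : ℕ} {θ : ℝ} {G : ℕ → ℝ → ℝ} (hG : Cells1 M θ G) (j : ℕ) : ∃ B : ℝ, 0 ≤ B ∧ ∀ x, |G j x| ≤ B := by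
  have hc : HasCompactSupport (G j) := by
    refine HasCompactSupport.intro (isCompact_Icc (a := θ * ((j : ℝ) - 1) / M) (b := θ * j / M)) fun x hx => ?_
    by_contra hne
    have h := hG.cell j x hne
    exact hx ⟨h.1.le, h.2.le⟩
  obtain ⟨B, hB⟩ := (hG.smooth j).continuous.bounded_above_of_compact_support hc
  exact ⟨B, (norm_nonneg _).trans (hB 0), fun x => by simpa using hB x⟩

private lemma ahrc_l1_smul (c : ℝ) (X : DPoly) : l1 (c • X) ≤ |c| * l1 X := by
  have h1 : c • X = MonoidAlgebra.single 1 c * X := by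
    rw [Algebra.smul_def]
    rfl
  rw [h1, ← l1_single 1 c]
  exact l1_mul_le _ _

private lemma ahrc_supp_sum {ι : Type*} (s : Finset ι) {N : ℝ} {X : ι → DPoly} (h : ∀ i ∈ s, SuppLe N (X i)) : SuppLe N (∑ i ∈ s, X i) := by
  intro n hn
  rw [MonoidAlgebra.coeff_sum, Finset.sum_apply'] at hn
  obtain ⟨m, hm, hm'⟩ := Finset.exists_ne_zero_of_sum_ne_zero hn
  exact h m hm n hm'

private lemma ahrc_supp_smul (c : ℝ) {N : ℝ} {X : DPoly} (h : SuppLe N X) : SuppLe N (c • X) := by
  intro n hn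
  rw [MonoidAlgebra.coeff_smul, Finsupp.smul_apply] at hn
  exact h n (right_ne_zero_of_mul hn)

/-- support of the coefficients `cf (-1) y k` -/
private lemma ahrc_supp {M : ℕ} {θ : ℝ} {G : ℕ → ℝ → ℝ} (hG : Cells1 M θ G) {T : ℝ} (hT : 1 < T) (k : ℕ) :
    SuppLe (T ^ (θ * k / M)) (cf (-1) (fun j => bb (G j) T) k) := by
  have hT0 : 0 < T := by linarith
  induction k using Nat.strong_induction_on with
  | _ k ih =>
    cases k with
    | zero =>
      rw [cf_zero, Nat.cast_zero, mul_zero, zero_div, Real.rpow_zero]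
      exact suppLe_one
    | succ k =>
      rw [cf_succ]
      refine ahrc_supp_smul _ (ahrc_supp_sum _ fun j hj => ahrc_supp_smul _ ?_)
      have hjk : j ≤ k := Nat.lt_succ_iff.mp (Finset.mem_range.mp hj)
      have h1 : SuppLe (T ^ (θ * ((j + 1 : ℕ) : ℝ) / M)) (bb (G (j + 1)) T) := by
        refine bb_supp (fun x hx => ?_) hT
        by_contra hne
        have h := (hG.cell (j + 1) x hne).2
        linarith
      have h2 := h1.mul (ih (k - j) (by omega))
      rw [← Real.rpow_add hT0] at h2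
      have e : θ * ((j + 1 : ℕ) : ℝ) / M + θ * ((k - j : ℕ) : ℝ) / M = θ * ((k + 1 : ℕ) : ℝ) / M := by
        rw [Nat.cast_sub hjk]
        push_cast
        ring
      rw [e] at h2
      exact h2

/-- the coefficient at `1` of a product vanishes if that of the first factor does -/
private lemma ahrc_one_mul {X Y : DPoly} (h : X.coeff 1 = 0) : (X * Y).coeff 1 = 0 := by
  rw [MonoidAlgebra.coeff_mul]
  by_contra hne
  obtain ⟨m, hm, hm'⟩ := Finset.exists_ne_zero_of_sum_ne_zero hne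
  obtain ⟨n, hn, hn'⟩ := Finset.exists_ne_zero_of_sum_ne_zero hm'
  have h1 : m * n = 1 := by
    by_contra h
    simp [h] at hn'
  have h2 : m = 1 := Nat.eq_one_of_mul_eq_one_right h1
  rw [h2] at hm
  exact Finsupp.mem_support_iff.1 hm h

private lemma ahrc_one (G : ℕ → ℝ → ℝ) (T : ℝ) (k : ℕ) : (cf (-1) (fun j => bb (G j) T) (k + 1)).coeff 1 = 0 := by
  rw [cf_succ, MonoidAlgebra.coeff_smul, Finsupp.smul_apply, MonoidAlgebra.coeff_sum, Finset.sum_apply']
  rw [Finset.sum_eq_zero, smul_zero]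
  intro j _
  rw [MonoidAlgebra.coeff_smul, Finsupp.smul_apply, ahrc_one_mul, smul_zero]
  rw [bb_coeff, if_neg]
  rintro ⟨_, h⟩
  exact Nat.not_prime_one h

/-- polynomial bound for the `l1` norms -/
private lemma ahrc_l1 {M : ℕ} {θ : ℝ} {G : ℕ → ℝ → ℝ} (hG : Cells1 M θ G) (k : ℕ) :
    ∃ K : ℝ, 0 ≤ K ∧ ∀ T : ℝ, 1 ≤ T → ∀ j ≤ k, l1 (cf (-1) (fun j => bb (G j) T) j) ≤ K * T ^ k := by
  choose B hB0 hB using ahrc_bound hG
  induction k with
  | zero =>
    refine ⟨1, zero_le_one, fun T _ j hj => ?_⟩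
    obtain rfl : j = 0 := Nat.le_zero.mp hj
    rw [cf_zero, l1_one, pow_zero, mul_one]
  | succ k ih =>
    obtain ⟨K, hK, h⟩ := ih
    have hS : 0 ≤ ∑ i ∈ Finset.range (k + 1), ((i : ℝ) + 1) * (2 * B (i + 1) * K) :=
      Finset.sum_nonneg fun i _ => mul_nonneg (by positivity) (mul_nonneg (mul_nonneg zero_le_two (hB0 _)) hK)
    refine ⟨K + ∑ i ∈ Finset.range (k + 1), ((i : ℝ) + 1) * (2 * B (i + 1) * K), add_nonneg hK hS, fun T hT j hj => ?_⟩
    have hT0 : 0 ≤ T := by linarith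
    have hTk : 0 ≤ T ^ k := pow_nonneg hT0 _
    rcases Nat.lt_or_ge j (k + 1) with hjk | hjk
    · refine (h T hT j (by omega)).trans ?_
      have h1 : T ^ k ≤ T ^ (k + 1) := pow_le_pow_right₀ hT (by omega)
      exact mul_le_mul (by linarith) h1 hTk (add_nonneg hK hS)
    · obtain rfl : j = k + 1 := by omega
      rw [cf_succ]
      refine (ahrc_l1_smul _ _).trans ?_
      have h1 : |(-1 : ℝ) / ((k : ℝ) + 1)| ≤ 1 := by
        rw [abs_div, abs_neg, abs_one, abs_of_pos (by positivity), div_le_one (by positivity)]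
        linarith [Nat.cast_nonneg (α := ℝ) k]
      have h2 : l1 (∑ i ∈ Finset.range (k + 1), ((i : ℝ) + 1) • (bb (G (i + 1)) T * cf (-1) (fun j => bb (G j) T) (k - i))) ≤
          (∑ i ∈ Finset.range (k + 1), ((i : ℝ) + 1) * (2 * B (i + 1) * K)) * T ^ (k + 1) := by
        refine (l1_sum_le _ _).trans ?_
        rw [Finset.sum_mul]
        refine Finset.sum_le_sum fun i hi => ?_
        refine (ahrc_l1_smul _ _).trans ?_
        rw [abs_of_pos (by positivity), mul_assoc]
        refine mul_le_mul_of_nonneg_left ?_ (by positivity)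
        refine (l1_mul_le _ _).trans ?_
        have h3 : l1 (bb (G (i + 1)) T) ≤ 2 * B (i + 1) * T := by
          refine (bb_l1 (hB (i + 1)) hT0).trans ?_
          have h4 : B (i + 1) * (T + 1) ≤ B (i + 1) * (2 * T) := mul_le_mul_of_nonneg_left (by linarith) (hB0 _)
          linarith
        calc l1 (bb (G (i + 1)) T) * l1 (cf (-1) (fun j => bb (G j) T) (k - i)) ≤ (2 * B (i + 1) * T) * (K * T ^ k) :=
              mul_le_mul h3 (h T hT (k - i) (by omega)) (l1_nonneg _) (mul_nonneg (mul_nonneg zero_le_two (hB0 _)) hT0)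
          _ = 2 * B (i + 1) * K * T ^ (k + 1) := by ring
      calc |(-1 : ℝ) / ((k : ℝ) + 1)| * l1 (∑ i ∈ Finset.range (k + 1), ((i : ℝ) + 1) • (bb (G (i + 1)) T * cf (-1) (fun j => bb (G j) T) (k - i)))
          ≤ 1 * l1 (∑ i ∈ Finset.range (k + 1), ((i : ℝ) + 1) • (bb (G (i + 1)) T * cf (-1) (fun j => bb (G j) T) (k - i))) :=
            mul_le_mul_of_nonneg_right h1 (l1_nonneg _)
        _ ≤ (∑ i ∈ Finset.range (k + 1), ((i : ℝ) + 1) * (2 * B (i + 1) * K)) * T ^ (k + 1) := by rw [one_mul]; exact h2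
        _ ≤ (K + ∑ i ∈ Finset.range (k + 1), ((i : ℝ) + 1) * (2 * B (i + 1) * K)) * T ^ (k + 1) :=
            mul_le_mul_of_nonneg_right (by linarith) (pow_nonneg hT0 _)

theorem CT_poly {M : ℕ} {G : ℕ → ℝ → ℝ} (hG : Cell0 M G) {θ : ℝ} (h0 : 0 < θ) (h1 : θ < 1) : ∃ c : ℝ, ∀ᶠ T in atTop,
    ∃ X : DPoly, (∀ t : ℝ, CT M (cG θ G) T t = ev t X) ∧ SuppLe (T ^ θ) X ∧ X.coeff 1 = 1 ∧ l1 X ≤ T ^ c := by
  have hC := hG.cells1 h0 h1
  have hM2 := hG.M_pos
  have hM : (0 : ℝ) < M := by exact_mod_cast (by omega : 0 < M)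
  obtain ⟨K, hK, hl⟩ := ahrc_l1 hC M
  refine ⟨(M : ℝ) + 1, ?_⟩
  filter_upwards [eventually_gt_atTop (1 : ℝ), eventually_ge_atTop ((M : ℝ) * K)] with T hT hTK
  have hT0 : 0 < T := by linarith
  refine ⟨∑ k ∈ Finset.range M, cf (-1) (fun j => bb (cG θ G j) T) k, ?_, ?_, ?_, ?_⟩
  · intro t
    unfold CT hh
    rw [map_sum]
    refine Finset.sum_congr rfl fun k _ => ?_
    rw [cf_map]
  · refine ahrc_supp_sum _ fun k hk => (ahrc_supp hC hT k).mono ?_
    refine Real.rpow_le_rpow_of_exponent_le hT.le ?_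
    rw [div_le_iff₀ hM]
    have h3 : (k : ℝ) ≤ M := by exact_mod_cast (Finset.mem_range.mp hk).le
    exact mul_le_mul_of_nonneg_left h3 h0.le
  · rw [MonoidAlgebra.coeff_sum, Finset.sum_apply']
    obtain ⟨m, rfl⟩ : ∃ m, M = m + 1 := ⟨M - 1, by omega⟩
    rw [Finset.sum_range_succ', Finset.sum_eq_zero fun k _ => ahrc_one _ _ _, cf_zero, zero_add, MonoidAlgebra.one_def,
      MonoidAlgebra.coeff_single, Finsupp.single_eq_same]
  · calc l1 (∑ k ∈ Finset.range M, cf (-1) (fun j => bb (cG θ G j) T) k) ≤ ∑ k ∈ Finset.range M, l1 (cf (-1) (fun j => bb (cG θ G j) T) k) :=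
          l1_sum_le _ _
      _ ≤ ∑ k ∈ Finset.range M, K * T ^ M := Finset.sum_le_sum fun k hk => hl T hT.le k (Finset.mem_range.mp hk).le
      _ = (M * K) * T ^ M := by rw [Finset.sum_const, Finset.card_range, nsmul_eq_mul]; ring
      _ ≤ T * T ^ M := mul_le_mul_of_nonneg_right hTK (pow_nonneg hT0.le _)
      _ = T ^ ((M : ℝ) + 1) := by
          rw [Real.rpow_add hT0, Real.rpow_one, Real.rpow_natCast]
          ring

theorem CT_DS {M : ℕ} {G : ℕ → ℝ → ℝ} (hG : Cell0 M G) {θ : ℝ} (h0 : 0 < θ) (h1 : θ < 1) : ∃ c : ℝ, 0 ≤ c ∧ ∀ᶠ T in atTop,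
    ∃ d : ℕ → ℂ, d 1 = 1 ∧ (∀ t : ℝ, CT M (cG θ G) T t = H87.AH.DS (Finset.Icc 1 ⌊T ^ θ⌋₊) d t) ∧
      ∑ n ∈ Finset.Icc 1 ⌊T ^ θ⌋₊, ‖d n‖ ≤ Real.exp (c * Real.log T) := by
  obtain ⟨c, hc⟩ := CT_poly hG h0 h1
  refine ⟨max c 0, le_max_right _ _, ?_⟩
  filter_upwards [hc, eventually_gt_atTop (1 : ℝ)] with T h hT
  obtain ⟨X, hX, hs, hone, hl⟩ := h
  have hT0 : 0 < T := by linarith
  have hsub : X.coeff.support ⊆ Finset.Icc 1 ⌊T ^ θ⌋₊ := by
    intro n hn
    have h2 := hs n (Finsupp.mem_support_iff.1 hn)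
    exact Finset.mem_Icc.mpr ⟨h2.1, Nat.le_floor h2.2⟩
  refine ⟨fun n => (X.coeff n : ℂ), ?_, ?_, ?_⟩
  · simp only [hone, Complex.ofReal_one]
  · intro t
    rw [hX, ev_eq]
    unfold H87.AH.DS
    rw [← Finset.sum_subset hsub]
    · refine Finset.sum_congr rfl fun n hn => ?_
      have h2 := hs n (Finsupp.mem_support_iff.1 hn)
      rw [Vb_chi t (by omega)]
      congr 2
      push_cast
      ring
    · intro n _ hn
      simp only [Finsupp.notMem_support_iff.1 hn, Complex.ofReal_zero, zero_mul]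
  · have e : ∑ n ∈ Finset.Icc 1 ⌊T ^ θ⌋₊, ‖((X.coeff n : ℝ) : ℂ)‖ = l1 X := by
      unfold l1
      rw [← Finset.sum_subset hsub]
      · refine Finset.sum_congr rfl fun n _ => ?_
        rw [Complex.norm_real, Real.norm_eq_abs]
      · intro n _ hn
        rw [Finsupp.notMem_support_iff.1 hn, Complex.ofReal_zero, norm_zero]
    rw [e]
    refine hl.trans ?_
    rw [Real.rpow_def_of_pos hT0]
    refine Real.exp_le_exp.mpr ?_
    rw [mul_comm]
    exact mul_le_mul_of_nonneg_right (le_max_left _ _) (Real.log_nonneg hT.le)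

/-- `C(t)` is continuous -/
theorem continuous_CT (M : ℕ) (G : ℕ → ℝ → ℝ) {T : ℝ} (hT : 0 < T) : Continuous (CT M G T) := by
  have _ := hT
  exact continuous_finsetSum _ fun k _ => Pool.Agent.H68.HF.continuous_hh G T k

end Pool.Agent.H68.AH
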