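import Mathlib

/-!
# MP_103a5c_AH, row AHRd: the sign argument at one point `t`

Data at a point: `V = ρ e^{iπ(x - 1/2)}`, `ρ = ‖V‖ ≥ e^{-A}`; complex numbers `P i = C_i(t+h)`, `Q i = C_i(t-h)` with `‖V P_i - Q_i‖ ≤ Λ_i (1 + ρ)`;
`e = exp(iΛ(t+h))` a unit, and `exp(iΛ(t-h)) = e · exp(-iπ(1-δ))`; weights `ε_i = 1/Λ_i`, `w_i = ε_i ξ^(2i) (1 - iξ)`, `1 ≤ ξ ≤ m`;
`a₊ = Re (e ∑ w_i P_i)`, `a₋ = Re (e exp(-iπ(1-δ)) ∑ w_i Q_i)`; `U ≥ ε_i ‖P_i‖` for all `i < r`.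
PROOF of `sign_point`.  `Q_i = V P_i + E_i`, `‖E_i‖ ≤ Λ_i (1+ρ)`.  `exp(-iπ(1-δ)) V = ρ exp(iπ(x + δ - 3/2)) = -ρ exp(iπ x')`, `x' = x + δ - 1/2` (`exp(-iπ) = -1`).
So `a₋ = -ρ Re (e ∑ w_i P_i) + Re (∑ e w_i (-ρ (exp(iπx') - 1) P_i + exp(-iπ(1-δ)) E_i)) = -ρ a₊ + Err`, with `‖exp(iπx') - 1‖ ≤ π|x'|`
(`Complex.norm_exp_I_mul_ofReal_sub_one_le` or `Complex.norm_exp_mul_I_sub_one_le`..), `‖w_i‖ ≤ ε_i (1+m)^(2r+1)` (`ξ^(2i) ≤ (1+m)^(2r)`, `‖1 - iξ‖ ≤ 1 + m`), `ε_i Λ_i = 1`: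
`|Err| ≤ r (1+m)^(2r+1) (ρ π |x'| U + 1 + ρ) < ρ |a₊|` by hypothesis `hbig` (divide by `ρ`: `(1+ρ)/ρ ≤ 1 + e^A`).  Hence `a₋ a₊ ≤ -ρ a₊² + |Err| |a₊| < 0` (`a₊ ≠ 0` since `0 ≤ |Err| < ρ|a₊|`).

`real_part_poly`: `Re (e ∑_{i<r} w_i P_i) = ∑_{l<2r} g_l ξ^l`, `g_{2i} = ε_i Re (e P_i)`, `g_{2i+1} = ε_i Im (e P_i)` since `Re ((1 - iξ) z) = Re z + ξ Im z`
(`Finset.sum_range_succ` induction on `r`).
`max_g`: `‖e P_i‖ = ‖P_i‖ ≤ |Re| + |Im| `, so one of `|g_{2i}|, |g_{2i+1}|` is at least `ε_i ‖P_i‖ / 2`.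
-/

open scoped Real ComplexConjugate

namespace Pool.Agent.H68.AH

/-- the weight of scale `i` at the node `ξ` -/
noncomputable def wt (ε : ℕ → ℝ) (ξ : ℕ) (i : ℕ) : ℂ := (ε i : ℂ) * (ξ : ℂ) ^ (2 * i) * (1 - Complex.I * ξ)

/-- the coefficients `g_l` -/
noncomputable def gco (ε : ℕ → ℝ) (e : ℂ) (P : ℕ → ℂ) (l : ℕ) : ℝ :=
  ε (l / 2) * (if l % 2 = 0 then (e * P (l / 2)).re else (e * P (l / 2)).im)

theorem real_part_poly (ε : ℕ → ℝ) (ξ : ℕ) (e : ℂ) (P : ℕ → ℂ) (r : ℕ) :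
    (e * ∑ i ∈ Finset.range r, wt ε ξ i * P i).re = ∑ l ∈ Finset.range (2 * r), gco ε e P l * (ξ : ℝ) ^ l := by
  induction r with
  | zero => simp
  | succ r ih =>
    have h2 : 2 * (r + 1) = 2 * r + 1 + 1 := by ring
    rw [Finset.sum_range_succ, mul_add, Complex.add_re, ih, h2, Finset.sum_range_succ,
      Finset.sum_range_succ, add_assoc]
    congr 1
    have e1 : (2 * r) / 2 = r := by omega
    have e2 : (2 * r + 1) / 2 = r := by omega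
    have e3 : (2 * r) % 2 = 0 := by omega
    have e4 : ¬ (2 * r + 1) % 2 = 0 := by omega
    unfold gco wt
    rw [e1, e2, if_pos e3, if_neg e4]
    have h3 : e * (((ε r : ℂ) * (ξ : ℂ) ^ (2 * r) * (1 - Complex.I * ξ)) * P r) =
        ((ε r * (ξ : ℝ) ^ (2 * r) : ℝ) : ℂ) * ((1 - Complex.I * ((ξ : ℝ) : ℂ)) * (e * P r)) := by
      push_cast
      ring
    rw [h3, Complex.re_ofReal_mul]
    have h4 : ((1 - Complex.I * ((ξ : ℝ) : ℂ)) * (e * P r)).re = (e * P r).re + ξ * (e * P r).im := by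
      rw [Complex.mul_re (1 - Complex.I * ((ξ : ℝ) : ℂ))]
      simp [Complex.sub_re, Complex.sub_im]
    rw [h4]
    ring

theorem max_g {ε : ℕ → ℝ} (hε : ∀ i, 0 < ε i) {e : ℂ} (he : ‖e‖ = 1) (P : ℕ → ℂ) {r i : ℕ} (hi : i < r) :
    ∃ l < 2 * r, ε i * ‖P i‖ / 2 ≤ |gco ε e P l| := by
  have h1 : ‖P i‖ = ‖e * P i‖ := by rw [norm_mul, he, one_mul]
  have h2 := Complex.norm_le_abs_re_add_abs_im (e * P i)
  have hε' := hε i
  rcases le_total |(e * P i).im| |(e * P i).re| with h | h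
  · refine ⟨2 * i, by omega, ?_⟩
    unfold gco
    have e1 : (2 * i) / 2 = i := by omega
    have e3 : (2 * i) % 2 = 0 := by omega
    rw [e1, if_pos e3, abs_mul, abs_of_pos hε', h1]
    nlinarith
  · refine ⟨2 * i + 1, by omega, ?_⟩
    unfold gco
    have e2 : (2 * i + 1) / 2 = i := by omega
    have e4 : ¬ (2 * i + 1) % 2 = 0 := by omega
    rw [e2, if_neg e4, abs_mul, abs_of_pos hε', h1]
    nlinarith

theorem sign_point {r m ξ : ℕ} (h1 : 1 ≤ ξ) (hm : ξ ≤ m) {Λ : ℕ → ℝ} (hΛ : ∀ i, 0 < Λ i) {V e : ℂ} {x δ A U : ℝ}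
    (hV : V = ‖V‖ * Complex.exp (Complex.I * π * (x - 1 / 2))) (hVA : Real.exp (-A) ≤ ‖V‖) (he : ‖e‖ = 1) {P Q : ℕ → ℂ}
    (hE : ∀ i < r, ‖V * P i - Q i‖ ≤ Λ i * (1 + ‖V‖)) (hU : ∀ i < r, 1 / Λ i * ‖P i‖ ≤ U)
    (hbig : r * (1 + m : ℝ) ^ (2 * r + 1) * (π * |x + δ - 1 / 2| * U + 1 + Real.exp A) <
      |(e * ∑ i ∈ Finset.range r, wt (fun i => 1 / Λ i) ξ i * P i).re|) :
    (e * Complex.exp (-(Complex.I * π * (1 - δ))) * ∑ i ∈ Finset.range r, wt (fun i => 1 / Λ i) ξ i * Q i).re *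
      (e * ∑ i ∈ Finset.range r, wt (fun i => 1 / Λ i) ξ i * P i).re < 0 := by
  obtain ⟨ρ, hρ⟩ : ∃ ρ, ρ = ‖V‖ := ⟨_, rfl⟩
  obtain ⟨x', hx'⟩ : ∃ x', x' = x + δ - 1 / 2 := ⟨_, rfl⟩
  obtain ⟨u, hu⟩ : ∃ u, u = Complex.exp (-(Complex.I * π * (1 - δ))) := ⟨_, rfl⟩
  obtain ⟨w, hw⟩ : ∃ w : ℕ → ℂ, w = wt (fun i => 1 / Λ i) ξ := ⟨_, rfl⟩
  rw [← hρ] at hV hVA hE
  rw [← hw] at hbig ⊢
  rw [← hx'] at hbig
  rw [← hu]
  have hρ0 : 0 < ρ := (Real.exp_pos _).trans_le hVA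
  have hun : ‖u‖ = 1 := by
    have : -(Complex.I * π * (1 - δ)) = ((-(π * (1 - δ)) : ℝ) : ℂ) * Complex.I := by
      push_cast
      ring
    rw [hu, this, Complex.norm_exp_ofReal_mul_I]
  have huV : u * V = -(ρ * Complex.exp (Complex.I * (π * x' : ℝ))) := by
    rw [hV, hu, mul_left_comm, ← Complex.exp_add]
    have h2 : -(Complex.I * π * (1 - δ)) + Complex.I * π * (x - 1 / 2) =
        Complex.I * (π * x' : ℝ) - π * Complex.I := by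
      rw [hx']
      push_cast
      ring
    rw [h2, Complex.exp_sub, Complex.exp_pi_mul_I]
    ring
  have hexp : ‖Complex.exp (Complex.I * (π * x' : ℝ)) - 1‖ ≤ π * |x'| := by
    have h2 := Real.norm_exp_I_mul_ofReal_sub_one_le (x := π * x')
    rw [Real.norm_eq_abs, abs_mul, abs_of_pos Real.pi_pos] at h2
    exact h2
  have hwn : ∀ i < r, ‖w i‖ ≤ 1 / Λ i * (1 + m : ℝ) ^ (2 * r + 1) := by
    intro i hi
    have hΛi := hΛ i
    have hξm : (ξ : ℝ) ≤ m := by exact_mod_cast hm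
    have hξ0 : (0 : ℝ) ≤ ξ := Nat.cast_nonneg ξ
    have hm0 : (0 : ℝ) ≤ m := Nat.cast_nonneg m
    rw [hw]
    unfold wt
    rw [norm_mul, norm_mul, norm_pow, Complex.norm_natCast]
    have h2 : ‖(((1 / Λ i : ℝ)) : ℂ)‖ = 1 / Λ i := by
      rw [Complex.norm_real, Real.norm_eq_abs, abs_of_pos (by positivity)]
    rw [h2]
    have h3 : ‖(1 : ℂ) - Complex.I * ξ‖ ≤ 1 + m := by
      refine (norm_sub_le _ _).trans ?_
      rw [norm_one, norm_mul, Complex.norm_I, one_mul, Complex.norm_natCast]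
      linarith
    have h4 : (ξ : ℝ) ^ (2 * i) ≤ (1 + m : ℝ) ^ (2 * r) :=
      (pow_le_pow_left₀ hξ0 (by linarith) _).trans (pow_le_pow_right₀ (by linarith) (by omega))
    rw [mul_assoc, pow_succ]
    refine mul_le_mul_of_nonneg_left ?_ (by positivity)
    exact mul_le_mul h4 h3 (norm_nonneg _) (by positivity)
  obtain ⟨D, hD⟩ : ∃ D : ℕ → ℂ, ∀ i, D i = V * P i - Q i := ⟨_, fun _ => rfl⟩
  obtain ⟨S, hS⟩ : ∃ S, S = e * ∑ i ∈ Finset.range r, w i * P i := ⟨_, rfl⟩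
  rw [← hS] at hbig ⊢
  obtain ⟨R, hR⟩ : ∃ R, R = e * ∑ i ∈ Finset.range r,
    w i * (-(ρ * (Complex.exp (Complex.I * (π * x' : ℝ)) - 1)) * P i - u * D i) := ⟨_, rfl⟩
  have hkey : e * u * ∑ i ∈ Finset.range r, w i * Q i = -(ρ * S) + R := by
    rw [hS, hR, mul_assoc, Finset.mul_sum]
    have h2 : -(ρ * (e * ∑ i ∈ Finset.range r, w i * P i)) + e * ∑ i ∈ Finset.range r,
        w i * (-(ρ * (Complex.exp (Complex.I * (π * x' : ℝ)) - 1)) * P i - u * D i) =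
        e * (∑ i ∈ Finset.range r, (-(ρ * (w i * P i)) +
          w i * (-(ρ * (Complex.exp (Complex.I * (π * x' : ℝ)) - 1)) * P i - u * D i))) := by
      rw [Finset.sum_add_distrib, Finset.sum_neg_distrib, ← Finset.mul_sum]
      ring
    rw [h2]
    congr 1
    refine Finset.sum_congr rfl fun i _ => ?_
    rw [hD]
    linear_combination (w i * P i) * huV
  have hRn : ‖R‖ ≤ r * ((1 + m : ℝ) ^ (2 * r + 1) * (ρ * (π * |x'| * U) + 1 + ρ)) := by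
    rw [hR, norm_mul, he, one_mul]
    refine (norm_sum_le _ _).trans ?_
    have h2 : ∀ i ∈ Finset.range r, ‖w i * (-(ρ * (Complex.exp (Complex.I * (π * x' : ℝ)) - 1)) * P i - u * D i)‖ ≤
        (1 + m : ℝ) ^ (2 * r + 1) * (ρ * (π * |x'| * U) + 1 + ρ) := by
      intro i hi
      have hi' := Finset.mem_range.1 hi
      have hΛi := hΛ i
      have hm0 : (0 : ℝ) ≤ m := Nat.cast_nonneg m
      rw [norm_mul]
      have h3 : ‖-(ρ * (Complex.exp (Complex.I * (π * x' : ℝ)) - 1)) * P i - u * D i‖ ≤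
          ρ * (π * |x'|) * ‖P i‖ + Λ i * (1 + ρ) := by
        refine (norm_sub_le _ _).trans ?_
        rw [norm_mul, norm_neg, norm_mul, norm_mul, hun, one_mul, Complex.norm_real, Real.norm_eq_abs,
          abs_of_pos hρ0]
        refine add_le_add ?_ ?_
        · gcongr
        · rw [hD]
          exact hE i hi'
      have h4 : 1 / Λ i * (ρ * (π * |x'|) * ‖P i‖ + Λ i * (1 + ρ)) ≤ ρ * (π * |x'| * U) + 1 + ρ := by
        have h5 := hU i hi'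
        have h6 : 1 / Λ i * (ρ * (π * |x'|) * ‖P i‖ + Λ i * (1 + ρ)) =
            ρ * (π * |x'|) * (1 / Λ i * ‖P i‖) + (1 + ρ) := by
          field_simp
        rw [h6]
        have h7 : 0 ≤ ρ * (π * |x'|) := by positivity
        have h8 := mul_le_mul_of_nonneg_left h5 h7
        linarith
      calc ‖w i‖ * ‖-(ρ * (Complex.exp (Complex.I * (π * x' : ℝ)) - 1)) * P i - u * D i‖
          ≤ (1 / Λ i * (1 + m : ℝ) ^ (2 * r + 1)) * (ρ * (π * |x'|) * ‖P i‖ + Λ i * (1 + ρ)) :=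
            mul_le_mul (hwn i hi') h3 (norm_nonneg _) (by positivity)
        _ = (1 + m : ℝ) ^ (2 * r + 1) * (1 / Λ i * (ρ * (π * |x'|) * ‖P i‖ + Λ i * (1 + ρ))) := by ring
        _ ≤ _ := mul_le_mul_of_nonneg_left h4 (by positivity)
    refine (Finset.sum_le_card_nsmul _ _ _ h2).trans ?_
    rw [Finset.card_range, nsmul_eq_mul]
  obtain ⟨B, hB⟩ : ∃ B, B = r * (1 + m : ℝ) ^ (2 * r + 1) * (π * |x'| * U + 1 + Real.exp A) := ⟨_, rfl⟩
  rw [← hB] at hbig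
  have hRB : ‖R‖ ≤ ρ * B := by
    refine hRn.trans ?_
    have hm0 : (0 : ℝ) ≤ m := Nat.cast_nonneg m
    have h2 : 1 ≤ ρ * Real.exp A := by
      have h3 := mul_le_mul_of_nonneg_right hVA (Real.exp_pos A).le
      rwa [← Real.exp_add, neg_add_cancel, Real.exp_zero] at h3
    have h4 : (ρ * (π * |x'| * U) + 1 + ρ) ≤ ρ * (π * |x'| * U + 1 + Real.exp A) := by linarith
    calc r * ((1 + m : ℝ) ^ (2 * r + 1) * (ρ * (π * |x'| * U) + 1 + ρ))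
        ≤ r * ((1 + m : ℝ) ^ (2 * r + 1) * (ρ * (π * |x'| * U + 1 + Real.exp A))) := by gcongr
      _ = ρ * B := by
        rw [hB]
        ring
  have hre : (e * u * ∑ i ∈ Finset.range r, w i * Q i).re = -(ρ * S.re) + R.re := by
    rw [hkey, Complex.add_re, Complex.neg_re, Complex.re_ofReal_mul]
  rw [hre]
  have h5 : |R.re| ≤ ρ * B := (Complex.abs_re_le_norm R).trans hRB
  have hB0 : 0 ≤ B := by
    by_contra hc
    push Not at hc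
    have := (abs_nonneg _).trans h5
    nlinarith
  have h6 : R.re * S.re ≤ ρ * B * |S.re| := by
    calc R.re * S.re ≤ |R.re * S.re| := le_abs_self _
      _ = |R.re| * |S.re| := abs_mul _ _
      _ ≤ _ := mul_le_mul_of_nonneg_right h5 (abs_nonneg _)
  have h7 : 0 < |S.re| := hB0.trans_lt hbig
  have h8 : S.re * S.re = |S.re| * |S.re| := (abs_mul_abs_self _).symm
  have h9 : ρ * B * |S.re| < ρ * |S.re| * |S.re| := by
    have : ρ * B < ρ * |S.re| := mul_lt_mul_of_pos_left hbig hρ0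
    exact mul_lt_mul_of_pos_right this h7
  nlinarith

end Pool.Agent.H68.AH
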