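import Mathlib
import Pool.Agent.H68.AH.St
import Pool.Agent.H68.AH.Ra
import Pool.Agent.H68.AH.Rc
import Pool.Agent.H68.AH.Rd
import Pool.Agent.H67.AH.Xi
import Pool.Agent.H68.HF.Mean

/-!
# MP_103a5c_AH: assembly of the parity statement from S1, P4, T1, PS, MS
-/

open MeasureTheory Set Filter Topology
open scoped Real ContDiff ComplexConjugate

namespace Pool.Agent.H68.AH

open Pool.Agent Pool.Agent.H6 Pool.Agent.H14.GP Pool.Agent.H24.HF Pool.Agent.H67.HF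

lemma fin_eta (r : ℕ) (f : ℕ → ℝ) (hf : ∀ i, 0 < f i) : ∃ η : ℝ, 0 < η ∧ ∀ i < r, η ≤ f i := by
  induction r with
  | zero => exact ⟨1, one_pos, fun i hi => absurd hi (Nat.not_lt_zero i)⟩
  | succ r ih =>
    obtain ⟨η, h0, h1⟩ := ih
    refine ⟨min η (f r), lt_min h0 (hf r), fun i hi => ?_⟩
    rcases Nat.lt_succ_iff_lt_or_eq.1 hi with h | h
    · exact (min_le_left _ _).trans (h1 i h)
    · rw [h]; exact min_le_right _ _

lemma fin_max (r : ℕ) (f : ℕ → ℝ) : ∃ D : ℝ, 1 ≤ D ∧ ∀ i < r, f i ≤ D := by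
  induction r with
  | zero => exact ⟨1, le_rfl, fun i hi => absurd hi (Nat.not_lt_zero i)⟩
  | succ r ih =>
    obtain ⟨D, h0, h1⟩ := ih
    refine ⟨max D (f r), h0.trans (le_max_left _ _), fun i hi => ?_⟩
    rcases Nat.lt_succ_iff_lt_or_eq.1 hi with h | h
    · exact (h1 i h).trans (le_max_left _ _)
    · rw [h]; exact le_max_right _ _

/-- separated scales -/
noncomputable def scs (N : ℕ) : ℕ → ℕ
  | 0 => N
  | (i + 1) => max N ⌈Real.exp (scs N i)⌉₊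

lemma scs_ge (N : ℕ) (i : ℕ) : N ≤ scs N i := by
  cases i with
  | zero => exact le_rfl
  | succ i => exact le_max_left _ _

lemma scs_exp (N : ℕ) (i : ℕ) : Real.exp (scs N i) ≤ scs N (i + 1) := by
  have h1 : Real.exp (scs N i) ≤ (⌈Real.exp (scs N i)⌉₊ : ℝ) := Nat.le_ceil _
  refine h1.trans ?_
  have : ⌈Real.exp (scs N i)⌉₊ ≤ scs N (i + 1) := le_max_right _ _
  exact_mod_cast this

lemma tendsto_lam : Tendsto (fun M : ℕ => lam M) atTop atTop := by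
  unfold lam
  exact (tendsto_rpow_atTop (by norm_num)).comp (Real.tendsto_log_atTop.comp tendsto_natCast_atTop_atTop)

lemma growth (U : ℝ) : ∀ᶠ M : ℕ in atTop, U * Real.log ((M : ℝ) + 1) ≤ Real.exp (lam M / 5) := by
  have h1 := (tendsto_exp_mul_div_rpow_atTop (20 / 9) (1 / 5) (by norm_num)).comp tendsto_lam
  filter_upwards [h1.eventually_ge_atTop (2 * |U| + 1), eventually_ge_atTop 3] with M hM hM3
  have hM0 : (3 : ℝ) ≤ M := by exact_mod_cast hM3
  have hlog : 1 ≤ Real.log M := by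
    rw [← Real.log_exp 1]
    exact Real.log_le_log (Real.exp_pos 1) ((Real.exp_one_lt_d9.le.trans (by norm_num)).trans hM0)
  have hlam : lam M ^ (20 / 9 : ℝ) = Real.log M := by
    unfold lam
    rw [← Real.rpow_mul (by linarith)]
    norm_num
  simp only [Function.comp] at hM
  rw [hlam, le_div_iff₀ (by linarith)] at hM
  have h2 : Real.log ((M : ℝ) + 1) ≤ 2 * Real.log M := by
    have h3 : (M : ℝ) + 1 ≤ (M : ℝ) ^ 2 := by nlinarith
    calc Real.log ((M : ℝ) + 1) ≤ Real.log ((M : ℝ) ^ 2) := Real.log_le_log (by linarith) h3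
      _ = 2 * Real.log M := by rw [Real.log_pow]; norm_num
  have h4 : 0 ≤ Real.log ((M : ℝ) + 1) := Real.log_nonneg (by linarith)
  calc U * Real.log ((M : ℝ) + 1) ≤ |U| * Real.log ((M : ℝ) + 1) := mul_le_mul_of_nonneg_right (le_abs_self U) h4
    _ ≤ |U| * (2 * Real.log M) := mul_le_mul_of_nonneg_left h2 (abs_nonneg U)
    _ ≤ (2 * |U| + 1) * Real.log M := by nlinarith
    _ ≤ Real.exp (1 / 5 * lam M) := hM
    _ = Real.exp (lam M / 5) := by congr 1; ring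

/-- the polynomial in the node -/
noncomputable def nodeP (r : ℕ) (g : ℕ → ℝ) : Polynomial ℝ :=
  ∑ l ∈ Finset.range (2 * r), Polynomial.C (g l) * Polynomial.X ^ l

lemma nodeP_eval (r : ℕ) (g : ℕ → ℝ) (x : ℝ) : (nodeP r g).eval x = ∑ l ∈ Finset.range (2 * r), g l * x ^ l := by
  unfold nodeP
  rw [Polynomial.eval_finsetSum]
  refine Finset.sum_congr rfl fun l _ => ?_
  simp

lemma nodeP_coeff (r : ℕ) (g : ℕ → ℝ) {l : ℕ} (hl : l < 2 * r) : (nodeP r g).coeff l = g l := by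
  unfold nodeP
  rw [Polynomial.finsetSum_coeff]
  simp only [Polynomial.coeff_C_mul, Polynomial.coeff_X_pow]
  rw [Finset.sum_eq_single l]
  · simp
  · intro b _ hb
    simp [Ne.symm hb]
  · intro h
    exact absurd (Finset.mem_range.2 hl) h

lemma nodeP_natDegree (r : ℕ) (g : ℕ → ℝ) : (nodeP r g).natDegree ≤ 2 * r := by
  unfold nodeP
  refine Polynomial.natDegree_sum_le_of_forall_le _ _ fun l hl => ?_
  refine (Polynomial.natDegree_C_mul_X_pow_le _ _).trans ?_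
  exact (Finset.mem_range.1 hl).le

/-! ### convex combinations of Dirichlet polynomials -/

lemma l1_smul_le (c : ℝ) (X : DPoly) : l1 (c • X) ≤ |c| * l1 X := by
  unfold l1
  have hsub : (c • X).coeff.support ⊆ X.coeff.support := by
    intro n hn
    rw [Finsupp.mem_support_iff] at hn ⊢
    intro h
    apply hn
    rw [MonoidAlgebra.coeff_smul_apply, h, smul_zero]
  rw [Finset.mul_sum]
  refine (Finset.sum_le_sum_of_subset_of_nonneg hsub fun n _ _ => abs_nonneg _).trans (le_of_eq ?_)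
  refine Finset.sum_congr rfl fun n _ => ?_
  rw [MonoidAlgebra.coeff_smul_apply, smul_eq_mul, abs_mul]

/-- a positive combination of polynomials with leading coefficient one, normalised -/
lemma combo {r : ℕ} (hr : 0 < r) {u : ℕ → ℝ} (hu : ∀ i, 0 < u i) {X : ℕ → DPoly} {N K : ℝ} (hX : ∀ i < r, SuppLe N (X i))
    (h1 : ∀ i < r, (X i).coeff 1 = 1) (hl : ∀ i < r, l1 (X i) ≤ K) :
    0 < ∑ i ∈ Finset.range r, u i ∧ ∃ Y : DPoly, SuppLe N Y ∧ Y.coeff 1 = 1 ∧ l1 Y ≤ K ∧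
      ∀ t : ℝ, (((∑ i ∈ Finset.range r, u i : ℝ)) : ℂ) * ev t Y = ∑ i ∈ Finset.range r, (u i : ℂ) * ev t (X i) := by
  set σ := ∑ i ∈ Finset.range r, u i with hσ
  have hσ0 : 0 < σ := Finset.sum_pos (fun i _ => hu i) ⟨0, Finset.mem_range.2 hr⟩
  refine ⟨hσ0, σ⁻¹ • ∑ i ∈ Finset.range r, u i • X i, ?_, ?_, ?_, ?_⟩
  · intro n hn
    rw [MonoidAlgebra.coeff_smul_apply, MonoidAlgebra.coeff_sum, Finsupp.finsetSum_apply] at hn
    by_contra hcon
    apply hn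
    rw [Finset.sum_eq_zero, smul_zero]
    intro i hi
    rw [MonoidAlgebra.coeff_smul_apply]
    have : (X i).coeff n = 0 := by
      by_contra h
      exact hcon (hX i (Finset.mem_range.1 hi) n h)
    rw [this, smul_zero]
  · rw [MonoidAlgebra.coeff_smul_apply, MonoidAlgebra.coeff_sum, Finsupp.finsetSum_apply]
    have : ∀ i ∈ Finset.range r, (u i • X i).coeff 1 = u i := by
      intro i hi
      rw [MonoidAlgebra.coeff_smul_apply, h1 i (Finset.mem_range.1 hi), smul_eq_mul, mul_one]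
    rw [Finset.sum_congr rfl this, smul_eq_mul, inv_mul_cancel₀ hσ0.ne']
  · refine (l1_smul_le _ _).trans ?_
    rw [abs_of_pos (inv_pos.2 hσ0), inv_mul_le_iff₀ hσ0]
    refine (l1_sum_le _ _).trans ?_
    rw [hσ, Finset.sum_mul]
    refine Finset.sum_le_sum fun i hi => ?_
    refine (l1_smul_le _ _).trans ?_
    rw [abs_of_pos (hu i)]
    exact mul_le_mul_of_nonneg_left (hl i (Finset.mem_range.1 hi)) (hu i).le
  · intro t
    rw [map_smul, map_sum, Complex.real_smul, ← mul_assoc]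
    have : ((σ : ℂ)) * ((σ⁻¹ : ℝ) : ℂ) = 1 := by
      rw [← Complex.ofReal_mul, mul_inv_cancel₀ hσ0.ne', Complex.ofReal_one]
    rw [this, one_mul]
    refine Finset.sum_congr rfl fun i _ => ?_
    rw [map_smul, Complex.real_smul]

/-- polar form of `V` -/
lemma VV_polar (χ₁ : ℝ → ℝ) (δ D T t : ℝ) : VV χ₁ δ D T t =
    ‖VV χ₁ δ D T t‖ * Complex.exp (Complex.I * π * (((nD χ₁ δ D T t).re : ℂ) - 1 / 2)) := by
  have h1 : ‖VV χ₁ δ D T t‖ = Real.exp (-(π * (nD χ₁ δ D T t).im)) := by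
    unfold VV
    rw [Complex.norm_exp]
    congr 1
    simp
  rw [h1]
  unfold VV
  rw [Complex.ofReal_exp, ← Complex.exp_add]
  congr 1
  apply Complex.ext <;> simp


/-- `Re (e^{i(ψ + λ L t)} Y(t))`, `λ = (1-δ)/(2δ)`, `L = log T` -/
noncomputable def aR (δ ψ : ℝ) (Y : DPoly) (T t : ℝ) : ℝ :=
  (Complex.exp (((ψ + (1 - δ) / (2 * δ) * Real.log T * t : ℝ) : ℂ) * Complex.I) * ev t Y).re

/-- The construction for one `T`. -/
lemma at_T {r m : ℕ} (hr : 0 < r) (hm : 0 < m) {c : ℝ} (hc0 : 0 < c)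
    (hc : ∀ p : Polynomial ℝ, p.natDegree ≤ 2 * r → ∀ H : ℝ, 0 < H → (∃ i, H ≤ |p.coeff i|) →
      ((Finset.Icc 1 m).filter fun ξ : ℕ => |p.eval (ξ : ℝ)| < c * H).card ≤ 2 * r)
    {A ε δ T N K U0 a b e : ℝ} (hδ0 : 0 < δ) (hT : 1 < T) (hU0 : 0 < U0)
    (hB1 : r * (1 + m : ℝ) ^ (2 * r + 1) * (π * (2 * ε)) ≤ c / (8 * r))
    (hB2 : r * (1 + m : ℝ) ^ (2 * r + 1) * (1 + Real.exp A) ≤ c * U0 / (8 * r))
    {Λ : ℕ → ℝ} (hΛ : ∀ i, 0 < Λ i) {X : ℕ → DPoly} (hX : ∀ i < r, SuppLe N (X i))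
    (h1 : ∀ i < r, (X i).coeff 1 = 1) (hl : ∀ i < r, l1 (X i) ≤ K)
    {V : ℝ → ℂ} {x : ℝ → ℝ} (hV : ∀ t, V t = ‖V t‖ * Complex.exp (Complex.I * π * ((x t : ℂ) - 1 / 2)))
    {E Z : Set ℝ} (hab : a ≤ b) (hE : volume.real (E ∩ Icc a b) ≤ e)
    (hP : ∀ t ∈ Icc a b, t ∉ E → ∃ i < r, U0 * Λ i ≤ ‖ev (t + π * δ / Real.log T) (X i)‖)
    (hE1 : ∀ t ∈ Icc a b, t ∉ E → ∀ i < r,
      ‖V t * ev (t + π * δ / Real.log T) (X i) - ev (t - π * δ / Real.log T) (X i)‖ ≤ Λ i * (1 + ‖V t‖))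
    (hE5 : ∀ t ∈ Icc a b, t ∉ E → Real.exp (-A) ≤ ‖V t‖)
    (hE4 : ∀ t ∈ Icc a b, t ∉ E → t ∈ Z → |x t + δ - 1 / 2| ≤ 2 * ε) :
    ∃ (Y : DPoly) (ψ : ℝ) (Bad : Set ℝ), SuppLe N Y ∧ Y.coeff 1 = 1 ∧ l1 Y ≤ K ∧ MeasurableSet Bad ∧ volume Bad ≠ ⊤ ∧
      volume.real Bad ≤ (2 * r : ℝ) * (b - a) / m + e + e ∧ ∀ t ∈ Icc a b, t ∉ Bad → t ∈ Z →
        aR δ ψ Y T (t - π * δ / Real.log T) * aR δ ψ Y T (t + π * δ / Real.log T) < 0 := by
  classical
  have hL : 0 < Real.log T := Real.log_pos hT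
  obtain ⟨h, hh⟩ : ∃ h : ℝ, h = π * δ / Real.log T := ⟨_, rfl⟩
  rw [← hh] at hP hE1 ⊢
  have hr0 : (0 : ℝ) < r := by exact_mod_cast hr
  have hm0 : (0 : ℝ) < m := by exact_mod_cast hm
  obtain ⟨lm, hlm⟩ : ∃ lm : ℝ, lm = (1 - δ) / (2 * δ) * Real.log T := ⟨_, rfl⟩
  obtain ⟨u, hu⟩ : ∃ u : ℝ → ℂ, u = fun t => Complex.exp (((lm * (t + h) : ℝ) : ℂ) * Complex.I) := ⟨_, rfl⟩
  have hu1 : ∀ t, ‖u t‖ = 1 := fun t => by rw [hu]; exact Complex.norm_exp_ofReal_mul_I _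
  obtain ⟨P, hPd⟩ : ∃ P : ℝ → ℕ → ℂ, P = fun t i => ev (t + h) (X i) := ⟨_, rfl⟩
  obtain ⟨Q, hQd⟩ : ∃ Q : ℝ → ℕ → ℂ, Q = fun t i => ev (t - h) (X i) := ⟨_, rfl⟩
  obtain ⟨U, hU⟩ : ∃ U : ℝ → ℝ, U = fun t => ∑ i ∈ Finset.range r, 1 / Λ i * ‖P t i‖ := ⟨_, rfl⟩
  obtain ⟨W, hW⟩ : ∃ W : ℕ → ℝ → ℝ, W = fun ξ t =>
    (u t * ∑ i ∈ Finset.range r, wt (fun i => 1 / Λ i) ξ i * P t i).re := ⟨_, rfl⟩
  have cP : ∀ i, Continuous fun t => P t i := fun i => by
    rw [hPd]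
    exact (H14.GP.continuous_ev (X i)).comp (continuous_id.add continuous_const)
  have cu : Continuous u := by rw [hu]; fun_prop
  have cU : Continuous U := by
    rw [hU]
    exact continuous_finsetSum _ fun i _ => continuous_const.mul (cP i).norm
  have cW : ∀ ξ, Continuous (W ξ) := fun ξ => by
    rw [hW]
    exact Complex.continuous_re.comp (cu.mul (continuous_finsetSum _ fun i _ => continuous_const.mul (cP i)))
  obtain ⟨Bs, hBs⟩ : ∃ Bs : ℕ → Set ℝ, Bs = fun ξ => {t | |W ξ t| < c * (U t / (2 * r))} := ⟨_, rfl⟩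
  have mB : ∀ ξ, MeasurableSet (Bs ξ) := fun ξ => by
    rw [hBs]
    exact measurableSet_lt (cW ξ).abs.measurable (by fun_prop : Continuous fun t => c * (U t / (2 * r))).measurable
  have hUle : ∀ t, ∀ i < r, 1 / Λ i * ‖P t i‖ ≤ U t := fun t i hi => by
    rw [hU]
    exact Finset.single_le_sum (f := fun i => 1 / Λ i * ‖P t i‖)
      (fun j _ => mul_nonneg (one_div_nonneg.2 (hΛ j).le) (norm_nonneg _)) (Finset.mem_range.2 hi)
  have hUU : ∀ t ∈ Icc a b, t ∉ E → U0 ≤ U t := by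
    intro t ht htE
    obtain ⟨i, hi, h2⟩ := hP t ht htE
    refine le_trans ?_ (hUle t i hi)
    rw [one_div, inv_mul_eq_div, le_div_iff₀ (hΛ i), hPd]
    exact h2
  -- some coefficient is large
  have hbig : ∀ t, 0 < U t → ∃ l < 2 * r, U t / (2 * r) ≤ |gco (fun i => 1 / Λ i) (u t) (P t) l| := by
    intro t hUt
    obtain ⟨i, hi, h2⟩ : ∃ i ∈ Finset.range r, U t / r ≤ 1 / Λ i * ‖P t i‖ := by
      by_contra hcon
      push Not at hcon
      have h3 := Finset.sum_lt_sum_of_nonempty (Finset.nonempty_range_iff.2 hr.ne') hcon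
      rw [Finset.sum_const, Finset.card_range, nsmul_eq_mul, mul_div_cancel₀ _ hr0.ne'] at h3
      have h4 : U t = ∑ i ∈ Finset.range r, 1 / Λ i * ‖P t i‖ := by rw [hU]
      linarith
    obtain ⟨l, hl2, hl3⟩ := max_g (ε := fun i => 1 / Λ i) (fun i => one_div_pos.2 (hΛ i)) (hu1 t) (P t) (Finset.mem_range.1 hi)
    refine ⟨l, hl2, le_trans ?_ hl3⟩
    have : U t / (2 * r) = U t / r / 2 := by field_simp
    rw [this]
    exact div_le_div_of_nonneg_right h2 (by norm_num)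
  obtain ⟨ξ, hξ, hξv⟩ := H67.AH.Xi_pigeon (D := 2 * r) hm mB hab hE (by
    intro t ht htE S hS hSB
    refine le_trans (Finset.card_le_card (t := (Finset.Icc 1 m).filter fun ξ : ℕ =>
      |(nodeP r (gco (fun i => 1 / Λ i) (u t) (P t))).eval (ξ : ℝ)| < c * (U t / (2 * r))) ?_)
      (hc (nodeP r (gco (fun i => 1 / Λ i) (u t) (P t))) (nodeP_natDegree _ _) (U t / (2 * r)) ?_ ?_)
    · intro ξ hξS
      rw [Finset.mem_filter]
      refine ⟨hS hξS, ?_⟩
      rw [nodeP_eval, ← real_part_poly]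
      have := hSB ξ hξS
      rw [hBs, hW] at this
      exact this
    · exact div_pos (lt_of_lt_of_le hU0 (hUU t ht htE)) (by positivity)
    · obtain ⟨l, hl2, hl3⟩ := hbig t (lt_of_lt_of_le hU0 (hUU t ht htE))
      exact ⟨l, by rw [nodeP_coeff _ _ hl2]; exact hl3⟩)
  rw [Finset.mem_Icc] at hξ
  have hξ0 : (0 : ℝ) < ξ := by exact_mod_cast hξ.1
  -- the combination
  obtain ⟨hσ, Y, hY1, hY2, hY3, hY4⟩ := combo hr (u := fun i => 1 / Λ i * (ξ : ℝ) ^ (2 * i))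
    (fun i => mul_pos (one_div_pos.2 (hΛ i)) (by positivity)) hX h1 hl
  set σ : ℝ := ∑ i ∈ Finset.range r, 1 / Λ i * (ξ : ℝ) ^ (2 * i) with hσd
  set ρ : ℂ := 1 - Complex.I * ξ with hρ
  have hρ0 : ρ ≠ 0 := by
    intro h0
    have := congrArg Complex.re h0
    simp [hρ] at this
  have hρn : 0 < ‖ρ‖ := norm_pos_iff.2 hρ0
  refine ⟨Y, Complex.arg ρ, toMeasurable volume ((Bs ξ ∪ E) ∩ Icc a b), hY1, hY2, hY3, measurableSet_toMeasurable _ _, ?_, ?_, ?_⟩
  · rw [measure_toMeasurable]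
    exact ne_top_of_le_ne_top (by rw [Real.volume_Icc]; exact ENNReal.ofReal_ne_top) (measure_mono inter_subset_right)
  · rw [measureReal_def, measure_toMeasurable, ← measureReal_def, union_inter_distrib_right]
    refine (measureReal_union_le _ _).trans ?_
    push_cast at hξv
    linarith
  · intro t ht htB htZ
    have htB' : t ∉ Bs ξ ∪ E := fun h0 => htB (subset_toMeasurable _ _ ⟨h0, ht⟩)
    rw [mem_union, not_or] at htB'
    obtain ⟨hb1, hb2⟩ := htB'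
    have hUt := hUU t ht hb2
    have hUt0 : 0 < U t := lt_of_lt_of_le hU0 hUt
    -- the sign at the point
    have hWt : c * (U t / (2 * r)) ≤ |W ξ t| := by
      rw [hBs] at hb1
      exact not_lt.1 hb1
    have hB0 : 0 < r * (1 + m : ℝ) ^ (2 * r + 1) := by positivity
    have hx := hE4 t ht hb2 htZ
    have key := sign_point (r := r) (m := m) (ξ := ξ) hξ.1 hξ.2 hΛ (V := V t) (e := u t) (x := x t) (δ := δ) (A := A)
      (U := U t) (hV t) (hE5 t ht hb2) (hu1 t) (P := P t) (Q := Q t)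
      (fun i hi => by rw [hPd, hQd]; exact hE1 t ht hb2 i hi) (hUle t) (by
        have e1 : W ξ t = (u t * ∑ i ∈ Finset.range r, wt (fun i => 1 / Λ i) ξ i * P t i).re := by rw [hW]
        rw [← e1]
        refine lt_of_lt_of_le ?_ hWt
        have g1 : r * (1 + m : ℝ) ^ (2 * r + 1) * (π * |x t + δ - 1 / 2| * U t) ≤ c / (8 * r) * U t := by
          calc r * (1 + m : ℝ) ^ (2 * r + 1) * (π * |x t + δ - 1 / 2| * U t)
              ≤ r * (1 + m : ℝ) ^ (2 * r + 1) * (π * (2 * ε) * U t) := by gcongr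
            _ = r * (1 + m : ℝ) ^ (2 * r + 1) * (π * (2 * ε)) * U t := by ring
            _ ≤ c / (8 * r) * U t := mul_le_mul_of_nonneg_right hB1 hUt0.le
        have g2 : r * (1 + m : ℝ) ^ (2 * r + 1) * (1 + Real.exp A) ≤ c / (8 * r) * U t := by
          refine hB2.trans ?_
          rw [div_mul_eq_mul_div]
          gcongr
        have g3 : c * (U t / (2 * r)) = 4 * (c / (8 * r) * U t) := by field_simp; ring
        have g4 : 0 < c / (8 * r) * U t := by positivity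
        rw [g3]
        calc r * (1 + m : ℝ) ^ (2 * r + 1) * (π * |x t + δ - 1 / 2| * U t + 1 + Real.exp A)
            = r * (1 + m : ℝ) ^ (2 * r + 1) * (π * |x t + δ - 1 / 2| * U t) +
              r * (1 + m : ℝ) ^ (2 * r + 1) * (1 + Real.exp A) := by ring
          _ ≤ c / (8 * r) * U t + c / (8 * r) * U t := add_le_add g1 g2
          _ < 4 * (c / (8 * r) * U t) := by linarith)
    -- translate
    have tr : ∀ (s : ℝ), (Complex.exp (((lm * s : ℝ) : ℂ) * Complex.I) *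
        ∑ i ∈ Finset.range r, wt (fun i => 1 / Λ i) ξ i * ev s (X i)).re = ‖ρ‖ * σ * aR δ (Complex.arg ρ) Y T s := by
      intro s
      have e1 : ∑ i ∈ Finset.range r, wt (fun i => 1 / Λ i) ξ i * ev s (X i) = ρ * (σ * ev s Y) := by
        rw [hY4 s, Finset.mul_sum]
        refine Finset.sum_congr rfl fun i _ => ?_
        unfold wt
        rw [hρ]
        push_cast
        ring
      have e2 : ρ = ‖ρ‖ * Complex.exp (Complex.arg ρ * Complex.I) := (Complex.norm_mul_exp_arg_mul_I ρ).symm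
      rw [e1]
      unfold aR
      have e3 : Complex.exp (((lm * s : ℝ) : ℂ) * Complex.I) * (ρ * (σ * ev s Y)) =
          ((‖ρ‖ * σ : ℝ) : ℂ) * (Complex.exp (((Complex.arg ρ + (1 - δ) / (2 * δ) * Real.log T * s : ℝ) : ℂ) * Complex.I) *
            ev s Y) := by
        have e4 : Complex.exp (((Complex.arg ρ + (1 - δ) / (2 * δ) * Real.log T * s : ℝ) : ℂ) * Complex.I) =
            Complex.exp (Complex.arg ρ * Complex.I) * Complex.exp (((lm * s : ℝ) : ℂ) * Complex.I) := by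
          rw [← Complex.exp_add]
          congr 1
          rw [hlm]
          push_cast
          ring
        rw [e4]
        conv_lhs => rw [e2]
        push_cast
        ring
      rw [e3, Complex.re_ofReal_mul]
    have e5 : u t * Complex.exp (-(Complex.I * π * (1 - δ))) = Complex.exp (((lm * (t - h) : ℝ) : ℂ) * Complex.I) := by
      rw [hu]
      simp only
      rw [← Complex.exp_add]
      congr 1
      have e6 : lm * (t - h) = lm * (t + h) - π * (1 - δ) := by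
        rw [hlm, hh]
        field_simp
        ring
      rw [e6]
      push_cast
      ring
    have e7 : u t = Complex.exp (((lm * (t + h) : ℝ) : ℂ) * Complex.I) := by rw [hu]
    have e8 : ∀ i, P t i = ev (t + h) (X i) := fun i => by rw [hPd]
    have e9 : ∀ i, Q t i = ev (t - h) (X i) := fun i => by rw [hQd]
    rw [e5, e7] at key
    simp only [e8, e9] at key
    rw [tr, tr] at key
    have hpos : 0 < ‖ρ‖ * σ := mul_pos hρn hσ
    have e10 : ‖ρ‖ * σ * aR δ (Complex.arg ρ) Y T (t - h) * (‖ρ‖ * σ * aR δ (Complex.arg ρ) Y T (t + h)) =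
        (‖ρ‖ * σ) ^ 2 * (aR δ (Complex.arg ρ) Y T (t - h) * aR δ (Complex.arg ρ) Y T (t + h)) := by ring
    rw [e10] at key
    exact (pos_iff_neg_of_mul_neg key).1 (by positivity)

/-- **Parity**, general form. -/
theorem core_gen {χ₁ : ℝ → ℝ} (hS1 : S1P χ₁) (hNV : NVP χ₁) (hP4 : P4P χ₁) (hT1 : T1P χ₁) (hPS : PSP) (hMS : MSP)
    (hcell : ∀ M, 2 ≤ M → ∃ G, Cell0 M G) {l : Filter ℝ} (hF : Hyp l) {p b₀ α β : ℝ} (hp0 : 0 < p) (hb₀ : b₀ < 1 / 2)
    (hα0 : 0 < α) (hαβ : α < β) (hβ1 : β < 1) : ∃ δ : ℝ, b₀ < δ ∧ 0 < δ ∧ δ < 1 / 2 ∧ ∃ θ : ℝ, 0 < θ ∧ θ < 1 ∧ ∃ c : ℝ, 0 ≤ c ∧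
      ∀ᶠ T in l, ∃ (Y : DPoly) (ψ : ℝ) (Bad : Set ℝ), SuppLe (T ^ θ) Y ∧ Y.coeff 1 = 1 ∧ l1 Y ≤ T ^ c ∧ MeasurableSet Bad ∧
        volume.real (Bad ∩ Icc (α * T) (β * T)) ≤ p * T ∧
        ∀ t ∈ Icc (α * T) (β * T), t ∉ Bad → (∀ i : PC.Z, π * δ / Real.log T ≤ |t - gZ i|) →
          aR δ ψ Y T (t - π * δ / Real.log T) * aR δ ψ Y T (t + π * δ / Real.log T) < 0 := by
  classical
  have hl : l ≤ atTop := hF.le
  obtain ⟨K0, hK0, hS1⟩ := hS1
  obtain ⟨K1, hK1, hP4⟩ := hP4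
  obtain ⟨pP, M1, hpP, hPS⟩ := hPS
  obtain ⟨K4, M2, hK4, hMS⟩ := hMS
  -- intervals
  have hα' : 0 < α / 2 := by linarith
  have hαα : α / 2 < α := by linarith
  have hββ : β < (1 + β) / 2 := by linarith
  have hαβ' : α / 2 < (1 + β) / 2 := by linarith
  have hβ1' : (1 + β) / 2 < 1 := by linarith
  -- number of scales and of nodes
  obtain ⟨r, hr⟩ := exists_nat_gt (20 * K4 / p)
  have hr0' : (0 : ℝ) < r := lt_of_le_of_lt (by positivity) hr
  have hr0 : 0 < r := by exact_mod_cast hr0'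
  have hr1 : (1 : ℝ) ≤ r := by exact_mod_cast hr0
  have hK4r : K4 / r ≤ p / 20 := by
    rw [div_lt_iff₀ hp0] at hr
    rw [div_le_div_iff₀ hr0' (by norm_num)]
    linarith
  obtain ⟨m, hm⟩ := exists_nat_gt (20 * (2 * r : ℝ) / p)
  have hm0' : (0 : ℝ) < m := lt_of_le_of_lt (by positivity) hm
  have hm0 : 0 < m := by exact_mod_cast hm0'
  have hrm : (2 * r : ℝ) / m ≤ p / 20 := by
    rw [div_lt_iff₀ hp0] at hm
    rw [div_le_div_iff₀ hm0' (by norm_num)]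
    linarith
  obtain ⟨c, hc0, hc⟩ := H67.AH.Xi_few (2 * r) m
  -- bound of log |V|
  obtain ⟨A, hA⟩ : ∃ A : ℝ, A = 1 + K1 * 2 ^ 8 * 20 / p := ⟨_, rfl⟩
  have hA1 : 1 ≤ A := by
    rw [hA]
    have : 0 ≤ K1 * 2 ^ 8 * 20 / p := by positivity
    linarith
  have hA0 : 0 < A := by linarith
  have hAp : K1 * 2 ^ 8 / A ^ 16 ≤ p / 20 := by
    have h1 : A ≤ A ^ 16 := le_self_pow₀ hA1 (by norm_num)
    have h2 : K1 * 2 ^ 8 * 20 / p ≤ A := by rw [hA]; linarith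
    rw [div_le_iff₀ hp0] at h2
    rw [div_le_div_iff₀ (by positivity) (by norm_num)]
    nlinarith
  obtain ⟨B, hB⟩ : ∃ B : ℝ, B = (1 + m : ℝ) ^ (2 * r + 1) := ⟨_, rfl⟩
  have hB0 : 0 < B := by rw [hB]; positivity
  obtain ⟨ε, hε⟩ : ∃ ε : ℝ, ε = c / (16 * r ^ 2 * B * π) := ⟨_, rfl⟩
  have hε0 : 0 < ε := by rw [hε]; positivity
  have hεB : r * B * (π * (2 * ε)) = c / (8 * r) := by
    rw [hε]
    field_simp
    ring
  obtain ⟨U0, hU0⟩ : ∃ U0 : ℝ, U0 = 8 * r ^ 2 * B * (1 + Real.exp A) / c := ⟨_, rfl⟩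
  have hU0p : 0 < U0 := by rw [hU0]; positivity
  have hU0B : r * B * (1 + Real.exp A) = c * U0 / (8 * r) := by
    rw [hU0]
    field_simp
  -- the scales
  have hev : ∀ᶠ M : ℕ in atTop, pP M ≤ p / (20 * r) ∧ 20 * r * K0 / p ≤ Real.log ((M : ℝ) + 1) ∧
      U0 * Real.log ((M : ℝ) + 1) ≤ Real.exp (lam M / 5) ∧ M1 ≤ M ∧ M2 ≤ M ∧ 2 ≤ M := by
    have h1 : ∀ᶠ M : ℕ in atTop, pP M ≤ p / (20 * r) := hpP.eventually_le_const (by positivity)
    have h2 : Tendsto (fun M : ℕ => Real.log ((M : ℝ) + 1)) atTop atTop :=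
      Real.tendsto_log_atTop.comp (tendsto_atTop_add_const_right _ _ tendsto_natCast_atTop_atTop)
    filter_upwards [h1, h2.eventually_ge_atTop (20 * r * K0 / p), growth U0, eventually_ge_atTop M1,
      eventually_ge_atTop M2, eventually_ge_atTop 2] with M a1 a2 a3 a4 a5 a6
    exact ⟨a1, a2, a3, a4, a5, a6⟩
  obtain ⟨N, hN⟩ := eventually_atTop.1 hev
  obtain ⟨Ms, hMs⟩ : ∃ Ms : ℕ → ℕ, Ms = scs N := ⟨_, rfl⟩
  have hMN : ∀ i, N ≤ Ms i := fun i => by rw [hMs]; exact scs_ge N i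
  have hMexp : ∀ i, Real.exp (Ms i) ≤ Ms (i + 1) := fun i => by rw [hMs]; exact scs_exp N i
  have hMi := fun i => hN (Ms i) (hMN i)
  choose Gs hGs using fun i => hcell (Ms i) (hMi i).2.2.2.2.2
  have hlogp : ∀ i, 0 < Real.log ((Ms i : ℝ) + 1) := fun i =>
    lt_of_lt_of_le (by positivity) (hMi i).2.1
  -- parameters of S1, PS
  choose ηS hηS0 hηS1 hS1' using fun i => hS1 (Ms i) (Gs i) (hGs i)
  choose ηP hηP0 hηP1 hPS' using fun i => hPS (Ms i) (Gs i) (hMi i).2.2.2.1 (hGs i)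
  obtain ⟨η1, hη10, hη1⟩ := fin_eta r ηS hηS0
  obtain ⟨η2, hη20, hη2⟩ := fin_eta r ηP hηP0
  obtain ⟨ζ, hζ⟩ : ∃ ζ : ℝ, ζ = min (min (η1 / 2) (η2 / 2)) (min (min (ε / 2) (1 / 8)) ((1 / 2 - b₀) / 2)) := ⟨_, rfl⟩
  have hζ0 : 0 < ζ := by
    rw [hζ]
    refine lt_min (lt_min (by linarith) (by linarith)) (lt_min (lt_min (by linarith) (by norm_num)) (by linarith))
  have hζ1 : ζ < η1 := by
    have : ζ ≤ η1 / 2 := by rw [hζ]; exact (min_le_left _ _).trans (min_le_left _ _)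
    linarith
  have hζ2 : ζ < η2 := by
    have : ζ ≤ η2 / 2 := by rw [hζ]; exact (min_le_left _ _).trans (min_le_right _ _)
    linarith
  have hζ3 : ζ ≤ ε / 2 := by rw [hζ]; exact (min_le_right _ _).trans ((min_le_left _ _).trans (min_le_left _ _))
  have hζ4 : ζ ≤ 1 / 8 := by rw [hζ]; exact (min_le_right _ _).trans ((min_le_left _ _).trans (min_le_right _ _))
  have hζ5 : ζ < 1 / 2 - b₀ := by
    have : ζ ≤ (1 / 2 - b₀) / 2 := by rw [hζ]; exact (min_le_right _ _).trans (min_le_right _ _)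
    linarith
  obtain ⟨θ, hθ⟩ : ∃ θ : ℝ, θ = 1 - ζ := ⟨_, rfl⟩
  obtain ⟨δ, hδ⟩ : ∃ δ : ℝ, δ = 1 / 2 - ζ := ⟨_, rfl⟩
  have hθ1 : θ < 1 := by linarith
  have hθh : 1 / 2 < θ := by linarith
  have hθ0 : 0 < θ := by linarith
  have hδ1 : δ < 1 / 2 := by linarith
  have hδ4 : 1 / 4 < δ := by linarith
  have hδ0 : 0 < δ := by linarith
  -- D
  have hS1'' : ∀ i, ∃ D₀ : ℝ, i < r → ∀ D, D₀ ≤ D → ∀ Λ : ℝ, 0 < Λ →
          Rare l α β (K0 * Real.log (Ms i + 1) / Λ ^ 2) (fun T => {t | Λ * (1 + ‖VV χ₁ δ D T t‖) <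
            ‖VV χ₁ δ D T t * CT (Ms i) (cG θ (Gs i)) T (t + π * δ / Real.log T) -
              CT (Ms i) (cG θ (Gs i)) T (t - π * δ / Real.log T)‖}) := by
    intro i
    by_cases hi : i < r
    · obtain ⟨D₀, -, h⟩ := hS1' i θ δ (by have := hη1 i hi; linarith) hθ1 (by have := hη1 i hi; linarith) hδ1
      exact ⟨D₀, fun _ D hD Λ hΛ => h D hD l hF α β hα0 hαβ hβ1 Λ hΛ⟩
    · exact ⟨0, fun h => absurd h hi⟩
  choose DS hDS using hS1''
  obtain ⟨D1, hD11, hD1⟩ := fin_max r DS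
  obtain ⟨D2, hD21, hT1'⟩ := hT1 δ hδ4 hδ1 ε (p / 20) hε0 (by positivity)
  obtain ⟨D, hD⟩ : ∃ D : ℝ, D = max D1 D2 := ⟨_, rfl⟩
  have hDD1 : D1 ≤ D := by rw [hD]; exact le_max_left _ _
  have hDD2 : D2 ≤ D := by rw [hD]; exact le_max_right _ _
  have hD1' : 1 ≤ D := hD11.trans hDD1
  -- the exceptional sets
  obtain ⟨E1, hE1⟩ : ∃ E1 : ℕ → ℝ → Set ℝ, E1 = fun i T => {t | Real.log ((Ms i : ℝ) + 1) * (1 + ‖VV χ₁ δ D T t‖) <
            ‖VV χ₁ δ D T t * CT (Ms i) (cG θ (Gs i)) T (t + π * δ / Real.log T) -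
              CT (Ms i) (cG θ (Gs i)) T (t - π * δ / Real.log T)‖} := ⟨_, rfl⟩
  obtain ⟨E2, hE2⟩ : ∃ E2 : ℕ → ℝ → Set ℝ, E2 = fun i T => {t | t + π * δ / Real.log T ∈
      {t | lam (Ms i) ≤ -XX (Ms i) (cG θ (Gs i)) T t ∧ ‖CT (Ms i) (cG θ (Gs i)) T t‖ < Real.exp (lam (Ms i) / 5)}} :=
    ⟨_, rfl⟩
  obtain ⟨E3, hE3⟩ : ∃ E3 : ℝ → Set ℝ, E3 = fun T => {t | t + π * δ / Real.log T ∈
      {t | ∀ i < r, -XX (Ms i) (cG θ (Gs i)) T t < lam (Ms i)}} := ⟨_, rfl⟩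
  obtain ⟨E4, hE4⟩ : ∃ E4 : ℝ → Set ℝ, E4 = fun T =>
      {t | (∀ i : PC.Z, π * δ / Real.log T ≤ |t - gZ i|) ∧ ε < |(nD χ₁ δ D T t).re|} := ⟨_, rfl⟩
  obtain ⟨E5, hE5⟩ : ∃ E5 : ℝ → Set ℝ, E5 = fun T => {t | t + (-(π * δ)) / Real.log T ∈
      {t | A < |Rr χ₁ D T (t + 2 * π * δ / Real.log T) - Rr χ₁ D T t|}} := ⟨_, rfl⟩
  have r1 : ∀ i ∈ Finset.range r, Rare l α β (p / (20 * r)) (E1 i) := by
    intro i hi
    rw [hE1]
    refine (hDS i (Finset.mem_range.1 hi) D ((hD1 i (Finset.mem_range.1 hi)).trans hDD1) _ (hlogp i)).mono hl ?_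
      (Eventually.of_forall fun T => inter_subset_left)
    have h1 := (hMi i).2.1
    rw [div_le_iff₀ hp0] at h1
    rw [div_le_div_iff₀ (by have := hlogp i; positivity) (by positivity)]
    nlinarith [hlogp i, mul_le_mul_of_nonneg_left h1 (hlogp i).le]
  have r2 : ∀ i ∈ Finset.range r, Rare l α β (p / (20 * r)) (E2 i) := by
    intro i hi
    rw [hE2]
    refine ((hPS' i θ (by have := hη2 i (Finset.mem_range.1 hi); linarith) hθ1 l hF (α / 2) ((1 + β) / 2) hα' hαβ' hβ1').shift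
      hl hαα hββ (π * δ)).mono hl (hMi i).1 (Eventually.of_forall fun T => inter_subset_left)
  have r3 : Rare l α β (p / 20) E3 := by
    rw [hE3]
    refine (((hMS r Ms Gs hr0 (fun i => (hMi i).2.2.2.2.1) hMexp hGs θ hθh hθ1 (α / 2) ((1 + β) / 2) hα' hαβ' hβ1').of_le
      hl).shift hl hαα hββ (π * δ)).mono hl hK4r (Eventually.of_forall fun T => inter_subset_left)
  have r4 : Rare l α β (p / 20) E4 := by
    rw [hE4]
    exact hT1' D hDD2 l hF α β hα0 hαβ hβ1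
  have r5 : Rare l α β (p / 20) E5 := by
    rw [hE5]
    refine ((hP4 D hD1' l hF (α / 2) ((1 + β) / 2) hα' hαβ' hβ1' δ A hA0).shift hl hαα hββ (-(π * δ))).mono hl ?_
      (Eventually.of_forall fun T => inter_subset_left)
    refine le_trans ?_ hAp
    have h1 : Real.log (1 + |δ|) ≤ 1 := by
      rw [abs_of_pos hδ0]
      have := Real.log_le_sub_one_of_pos (show (0 : ℝ) < 1 + δ by linarith)
      linarith
    have h2 : 0 ≤ Real.log (1 + |δ|) := Real.log_nonneg (by have := abs_nonneg δ; linarith)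
    have h3 : (1 + Real.log (1 + |δ|)) ^ 8 ≤ 2 ^ 8 := pow_le_pow_left₀ (by linarith) (by linarith) 8
    exact div_le_div_of_nonneg_right (mul_le_mul_of_nonneg_left h3 hK1.le) (by positivity)
  obtain ⟨E, hE⟩ : ∃ E : ℝ → Set ℝ, E = fun T => (⋃ i ∈ Finset.range r, E1 i T) ∪ ((⋃ i ∈ Finset.range r, E2 i T) ∪
      (E3 T ∪ (E4 T ∪ E5 T))) := ⟨_, rfl⟩
  have hsum : ∑ _i ∈ Finset.range r, p / (20 * r) = p / 20 := by
    rw [Finset.sum_const, Finset.card_range, nsmul_eq_mul]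
    field_simp
  have hRE : Rare l α β (p / 4) E := by
    have h1 := (Rare.biUnion (Finset.range r) r1).union ((Rare.biUnion (Finset.range r) r2).union (r3.union (r4.union r5)))
    rw [hsum] at h1
    rw [hE]
    exact h1.mono hl (by linarith) (Eventually.of_forall fun T => inter_subset_left)
  -- the Dirichlet polynomials
  choose cX hcX using fun i => CT_poly (hGs i) hθ0 hθ1
  obtain ⟨cc, hcc1, hcc⟩ := fin_max r cX
  have hXev : ∀ᶠ T in l, ∀ i ∈ Finset.range r, ∃ X : DPoly, (∀ t : ℝ, CT (Ms i) (cG θ (Gs i)) T t = ev t X) ∧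
      SuppLe (T ^ θ) X ∧ X.coeff 1 = 1 ∧ l1 X ≤ T ^ (cX i) :=
    (eventually_all_finset _).2 fun i _ => hl (hcX i)
  refine ⟨δ, by linarith, hδ0, hδ1, θ, hθ0, hθ1, cc, by linarith, ?_⟩
  filter_upwards [hRE, hXev, hl (eventually_gt_atTop 1)] with T hET hXT hT1
  have hT0 : 0 < T := by linarith
  have hL : 0 < Real.log T := Real.log_pos hT1
  have hXT' : ∀ i, ∃ X : DPoly, i < r → (∀ t : ℝ, CT (Ms i) (cG θ (Gs i)) T t = ev t X) ∧
      SuppLe (T ^ θ) X ∧ X.coeff 1 = 1 ∧ l1 X ≤ T ^ (cX i) := by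
    intro i
    by_cases hi : i < r
    · obtain ⟨X, hX⟩ := hXT i (Finset.mem_range.2 hi)
      exact ⟨X, fun _ => hX⟩
    · exact ⟨0, fun h => absurd h hi⟩
  choose X hX using hXT'
  have hEsub : ∀ t, t ∉ E T → (∀ i < r, t ∉ E1 i T) ∧ (∀ i < r, t ∉ E2 i T) ∧ t ∉ E3 T ∧ t ∉ E4 T ∧ t ∉ E5 T := by
    intro t ht
    rw [hE] at ht
    simp only [mem_union, mem_iUnion, Finset.mem_range, not_or, not_exists] at ht
    exact ⟨fun i hi => ht.1 i hi, fun i hi => ht.2.1 i hi, ht.2.2.1, ht.2.2.2.1, ht.2.2.2.2⟩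
  obtain ⟨Y, ψ, Bad, hY1, hY2, hY3, hBm, hBf, hBv, hsign⟩ := at_T (r := r) (m := m) hr0 hm0 hc0 hc (A := A) (ε := ε) (δ := δ)
    (T := T) (N := T ^ θ) (K := T ^ cc) (U0 := U0) (a := α * T) (b := β * T) (e := p / 4 * T) hδ0 hT1 hU0p
    (by rw [← hB, hεB]) (by rw [← hB, hU0B]) (Λ := fun i => Real.log ((Ms i : ℝ) + 1)) hlogp (X := X)
    (fun i hi => (hX i hi).2.1) (fun i hi => (hX i hi).2.2.1)
    (fun i hi => (hX i hi).2.2.2.trans (Real.rpow_le_rpow_of_exponent_le hT1.le (hcc i hi)))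
    (V := VV χ₁ δ D T) (x := fun t => (nD χ₁ δ D T t).re) (fun t => VV_polar χ₁ δ D T t) (E := E T)
    (Z := {t | ∀ i : PC.Z, π * δ / Real.log T ≤ |t - gZ i|})
    (mul_le_mul_of_nonneg_right hαβ.le hT0.le) hET (by
      -- large
      intro t _ htE
      obtain ⟨-, h2, h3, -, -⟩ := hEsub t htE
      rw [hE3] at h3
      simp only [mem_setOf_eq, not_forall, not_lt] at h3
      obtain ⟨i, hi, h4⟩ := h3
      have h5 := h2 i hi
      rw [hE2] at h5
      simp only [mem_setOf_eq, not_and, not_lt] at h5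
      have h6 := h5 h4
      refine ⟨i, hi, ?_⟩
      rw [← (hX i hi).1]
      exact ((hMi i).2.2.1).trans h6) (by
      -- relation
      intro t _ htE i hi
      have h1 := (hEsub t htE).1 i hi
      rw [hE1] at h1
      simp only [mem_setOf_eq, not_lt] at h1
      rw [← (hX i hi).1, ← (hX i hi).1]
      exact h1) (by
      -- size of V
      intro t _ htE
      have h5 := (hEsub t htE).2.2.2.2
      rw [hE5] at h5
      simp only [mem_setOf_eq, not_lt] at h5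
      rw [hNV δ D T t hT1 hD1']
      apply Real.exp_le_exp.2
      have e1 : t + -(π * δ) / Real.log T + 2 * π * δ / Real.log T = t + π * δ / Real.log T := by ring
      have e2 : t + -(π * δ) / Real.log T = t - π * δ / Real.log T := by ring
      rw [e1, e2] at h5
      linarith [neg_abs_le (Rr χ₁ D T (t + π * δ / Real.log T) - Rr χ₁ D T (t - π * δ / Real.log T))]) (by
      -- phase
      intro t _ htE htZ
      have h4 := (hEsub t htE).2.2.2.1
      rw [hE4] at h4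
      simp only [mem_setOf_eq, not_and, not_lt] at h4
      have h5 := h4 htZ
      have h6 : δ - 1 / 2 = -ζ := by rw [hδ]; ring
      rw [add_sub_assoc, h6]
      calc |(nD χ₁ δ D T t).re + -ζ| ≤ |(nD χ₁ δ D T t).re| + |-ζ| := abs_add_le _ _
        _ ≤ ε + ε / 2 := by
          rw [abs_neg, abs_of_pos hζ0]
          exact add_le_add h5 hζ3
        _ ≤ 2 * ε := by linarith)
  refine ⟨Y, ψ, Bad, hY1, hY2, hY3, hBm, ?_, hsign⟩
  have hfin : volume.real (Bad ∩ Icc (α * T) (β * T)) ≤ volume.real Bad := measureReal_mono inter_subset_left hBf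
  refine hfin.trans (hBv.trans ?_)
  have h1 : (2 * r : ℝ) * (β * T - α * T) / m ≤ p / 20 * T := by
    calc (2 * r : ℝ) * (β * T - α * T) / m = 2 * r / m * ((β - α) * T) := by ring
      _ ≤ p / 20 * ((β - α) * T) := by
        apply mul_le_mul_of_nonneg_right hrm
        apply mul_nonneg _ hT0.le
        linarith
      _ ≤ p / 20 * T := by
        apply mul_le_mul_of_nonneg_left _ (by positivity)
        nlinarith
  nlinarith [mul_pos hp0 hT0]

end Pool.Agent.H68.AH
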