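import Mathlib
import Pool.Agent.H68.AH.Core
import Pool.Agent.H87.AH.O3
import Pool.Agent.H67.AH.Ps
import Pool.Agent.H67.AH.Ms
import Pool.Agent.H5.AH.T1
import Pool.Agent.H29.AH.Cell
import Pool.Agent.H26.AH.Nv
import Pool.Agent.H26.AH.Ks
import Pool.Agent.H24.AH.Pc
import Pool.Agent.H84.AH.V8
import Pool.Agent.H87.HF.L5
import Pool.Agent.H92.RG.S1
import Pool.Agent.H26.AH.P4

/-!
# MP_103a5c_AH: final assembly
-/

open MeasureTheory Set Filter Topology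
open scoped Real ContDiff ComplexConjugate

namespace Pool.Agent.H68.AH

open Pool.Agent Pool.Agent.H6 Pool.Agent.H14.GP Pool.Agent.H24.HF Pool.Agent.H67.HF

/-- `aR` (real `DPoly`, phase `ψ`) as `aS` of helper87 (complex coefficients, phase `0`). -/
lemma aS_eq {T θ : ℝ} {Y : DPoly} (hY : SuppLe (T ^ θ) Y) (δ ψ t : ℝ) :
    aR δ ψ Y T t = H87.AH.aS (Finset.Icc 1 ⌊T ^ θ⌋₊) (fun n => Complex.exp (ψ * Complex.I) * (Y.coeff n : ℂ)) 0
      ((1 - δ) / (2 * δ) * Real.log T) t := by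
  have hsub : Y.coeff.support ⊆ Finset.Icc 1 ⌊T ^ θ⌋₊ := by
    intro n hn
    obtain ⟨h1, h2⟩ := hY n (Finsupp.mem_support_iff.1 hn)
    exact Finset.mem_Icc.2 ⟨h1, Nat.le_floor h2⟩
  have hev : ev t Y = ∑ n ∈ Finset.Icc 1 ⌊T ^ θ⌋₊, (Y.coeff n : ℂ) * Complex.exp (-((Real.log n : ℂ) * (t : ℂ)) * Complex.I) := by
    unfold ev
    rw [MonoidAlgebra.lift_apply]
    unfold Finsupp.sum
    rw [Finset.sum_subset hsub]
    · refine Finset.sum_congr rfl fun n hn => ?_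
      have hn1 : n ≠ 0 := by
        have := (Finset.mem_Icc.1 hn).1
        omega
      show Y.coeff n • (chi t n) = _
      rw [Complex.real_smul]
      congr 1
      show (if n = 0 then 0 else Complex.exp (-((t * Real.log n : ℝ) : ℂ) * Complex.I)) = _
      rw [if_neg hn1]
      congr 1
      push_cast
      ring
    · intro n _ hn
      rw [Finsupp.notMem_support_iff.1 hn]
      simp
  unfold aR H87.AH.aS H87.AH.DS
  congr 1
  rw [hev, zero_add, Finset.mul_sum, Finset.mul_sum]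
  refine Finset.sum_congr rfl fun n _ => ?_
  have : Complex.exp (((ψ + (1 - δ) / (2 * δ) * Real.log T * t : ℝ) : ℂ) * Complex.I) =
      Complex.exp ((((1 - δ) / (2 * δ) * Real.log T * t : ℝ) : ℂ) * Complex.I) * Complex.exp (ψ * Complex.I) := by
    rw [← Complex.exp_add]
    congr 1
    push_cast
    ring
  rw [this]
  ring

/-- helper87's `CoreFF` from the blocks. -/
theorem CoreFF_of {χ₁ : ℝ → ℝ} (hS1 : S1P χ₁) (hNV : NVP χ₁) (hP4 : P4P χ₁) (hT1 : T1P χ₁) (hPS : PSP) (hMS : MSP)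
    (hcell : ∀ M, 2 ≤ M → ∃ G, Cell0 M G) {FF : Filter ℝ} (hF : Hyp FF) : H87.AH.CoreFF FF := by
  intro p δ₁ α β hp hδ₁ hα hαβ hβ
  obtain ⟨δ, h1, h2, h3, θ, h4, h5, c, h6, h7⟩ := core_gen hS1 hNV hP4 hT1 hPS hMS hcell hF hp hδ₁ hα hαβ hβ
  refine ⟨δ, θ, 1, c, h1, h3, h4, h5, one_pos, h6, ?_⟩
  filter_upwards [h7, hF.le (eventually_gt_atTop 1)] with T hT hT1
  obtain ⟨Y, ψ, Bad, g1, g2, g3, g4, g5, g6⟩ := hT
  have hT0 : 0 < T := by linarith
  have hn : ∀ z : ℝ, ‖Complex.exp (ψ * Complex.I) * (z : ℂ)‖ = |z| := by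
    intro z
    rw [norm_mul, Complex.norm_exp_ofReal_mul_I, one_mul, Complex.norm_real, Real.norm_eq_abs]
  refine ⟨Finset.Icc 1 ⌊T ^ θ⌋₊, fun n => Complex.exp (ψ * Complex.I) * (Y.coeff n : ℂ), Bad, ?_, ?_, ?_, ?_, g5, ?_⟩
  · rw [Finset.mem_Icc]
    exact ⟨le_rfl, Nat.le_floor (by rw [Nat.cast_one]; exact Real.one_le_rpow hT1.le h4.le)⟩
  · intro n hn
    obtain ⟨a1, a2⟩ := Finset.mem_Icc.1 hn
    refine ⟨a1, ?_⟩
    have a3 : (n : ℝ) ≤ T ^ θ := (Nat.le_floor_iff (by positivity)).1 a2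
    rw [← Real.log_rpow hT0]
    exact Real.log_le_log (by exact_mod_cast a1) a3
  · simp only
    rw [hn, g2, abs_one]
  · simp only [hn]
    have hsub : Y.coeff.support ⊆ Finset.Icc 1 ⌊T ^ θ⌋₊ := by
      intro n hn
      obtain ⟨h1, h2⟩ := g1 n (Finsupp.mem_support_iff.1 hn)
      exact Finset.mem_Icc.2 ⟨h1, Nat.le_floor h2⟩
    rw [← Finset.sum_subset hsub (fun n _ hn => by rw [Finsupp.notMem_support_iff.1 hn, abs_zero])]
    refine (le_of_eq rfl).trans (g3.trans (le_of_eq ?_))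
    rw [Real.rpow_def_of_pos hT0, mul_comm]
  · intro t ht htB htZ
    rw [← aS_eq g1, ← aS_eq g1]
    exact g6 t ht htB htZ

/-- Everything from S1 and P4. -/
theorem coreFF_of_S1_P4 (RH : RiemannHypothesis) {χ₁ : ℝ → ℝ} (hχ : Win2 χ₁ 1) (hS1 : S1P χ₁) (hP4 : P4P χ₁)
    {FF : Filter ℝ} (hF : Hyp FF) : H87.AH.CoreFF FF := by
  have hNV : NVP χ₁ := fun δ D T t hT hD => H26.AH.norm_VV δ D T t hT hD
  have hT1 : T1P χ₁ := fun δ h1 h2 ε p hε hp => H5.AH.T1 RH hχ h1 h2 hε hp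
  have hKs : KsP := by
    obtain ⟨K₃, M₀, hK, h⟩ := H26.AH.Ksamp1
    refine ⟨K₃, M₀, hK, fun M G hM hG θ δ h1 h2 h3 h4 α β hα hαβ hβ => ?_⟩
    exact h M θ (cG θ G) hM (hG.cells1 (by linarith) h2) δ h3 h4 α β hα hαβ hβ
  have hPS : PSP := H67.AH.PS hS1 hNV hP4 H24.AH.P1P_holds hKs
  exact CoreFF_of hS1 hNV hP4 hT1 hPS H67.AH.MS H29.AH.exists_cell0 hF

/-- A window of band one exists. -/
theorem exists_win1 : ∃ χ₁ : ℝ → ℝ, Win2 χ₁ 1 := by
  obtain ⟨χ, D, hW, -⟩ := H87HF.exists_win one_pos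
  have hD : 1 ≤ D := hW.D_pos
  have hD0 : 0 < D := by linarith
  refine ⟨fun u => χ (D * u), ?_⟩
  exact
    { D_pos := le_rfl
      smooth := hW.smooth.comp (contDiff_const.mul contDiff_id)
      even := fun u => by
        show χ (D * -u) = χ (D * u)
        rw [mul_neg, hW.even]
      supp := fun u hu => by
        apply hW.supp
        rw [abs_mul, abs_of_pos hD0]
        nlinarith
      zero := by
        show χ (D * 0) = 1
        rw [mul_zero, hW.zero]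
      nonneg := fun u => hW.nonneg _
      le_one := fun u => hW.le_one _
      pos := fun x => by
        have e : cosT (fun u => χ (D * u)) x = D⁻¹ * cosT χ (D⁻¹ * x) := by
          have h1 := H5.AH.cosT_win_dil χ (inv_pos.2 hD0) x
          have h2 : H68.AH.win χ D⁻¹ = fun u => χ (D * u) := by
            funext u
            unfold win
            rw [div_inv_eq_mul, mul_comm]
          rw [h2] at h1
          exact h1
        rw [e]
        exact mul_nonneg (inv_pos.2 hD0).le (hW.pos _) }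

/-- The dichotomy from S1 and P4. -/
theorem dichotomy_of_S1_P4 (RH : RiemannHypothesis) {χ₁ : ℝ → ℝ} (hχ : Win2 χ₁ 1) (hS1 : S1P χ₁) (hP4 : P4P χ₁)
    {ε : ℝ} (hε : 0 < ε) : ∃ c b₀ : ℝ, 0 < c ∧ 0 < b₀ ∧ b₀ < 1 / 2 ∧ ∀ᶠ T in atTop,
      (1 + c) * PC.norm T ≤ PC.pairCount T 0 b₀ ∨
        ∀ a b : ℝ, |a| ≤ 1 / ε → |b| ≤ 1 / ε → (∀ k : ℤ, ε ≤ |a - k / 2|) → (∀ k : ℤ, ε ≤ |b - k / 2|) →
          |PC.pairCount T a b - predAH a b * PC.norm T| ≤ ε * PC.norm T :=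
  H84.AH.dichotomy RH (H84.AH.mainP_of_core RH fun _ hF => coreFF_of_S1_P4 RH hχ hS1 hP4 hF) hε

/-- **The Alternative Hypothesis dichotomy.** -/
theorem dichotomy_final (RH : RiemannHypothesis) {ε : ℝ} (hε : 0 < ε) : ∃ c b₀ : ℝ, 0 < c ∧ 0 < b₀ ∧ b₀ < 1 / 2 ∧
    ∀ᶠ T in atTop, (1 + c) * PC.norm T ≤ PC.pairCount T 0 b₀ ∨
        ∀ a b : ℝ, |a| ≤ 1 / ε → |b| ≤ 1 / ε → (∀ k : ℤ, ε ≤ |a - k / 2|) → (∀ k : ℤ, ε ≤ |b - k / 2|) →
          |PC.pairCount T a b - predAH a b * PC.norm T| ≤ ε * PC.norm T := by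
  obtain ⟨χ₁, hχ⟩ := exists_win1
  exact dichotomy_of_S1_P4 RH hχ (H92.RG.S1P_holds RH hχ) (H26.AH.P4 RH hχ) hε

end Pool.Agent.H68.AH
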