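import Mathlib
import Pool.Agent.H68.AH.Defs
import Pool.Agent.H87.AH.J3

/-!
# MP_103a5c_AH: the interface (statements of the blocks).  NOT to be imported by proofs: each block proves its statement in
its own files, the final assembly imports those.
-/

open MeasureTheory Set Filter Topology
open scoped Real ContDiff ComplexConjugate

namespace Pool.Agent.H68.AH.Iface

open Pool.Agent Pool.Agent.H6 Pool.Agent.H14.GP Pool.Agent.H24.HF Pool.Agent.H67.HF Pool.Agent.H68.AH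

/-- Cells exist for every `M ≥ 2`. -/
theorem exists_cell0 (M : ℕ) (hM : 2 ≤ M) : ∃ G, Cell0 M G := by sorry

/-- (S1) Section 1: the relation `V C₊ = C₋` with an error of mean square `O(log M)`. -/
theorem S1 (RH : RiemannHypothesis) {χ₁ : ℝ → ℝ} (hχ : Win2 χ₁ 1) : ∃ K₀ : ℝ, 0 < K₀ ∧
    ∀ (M : ℕ) (G : ℕ → ℝ → ℝ), Cell0 M G → ∃ η : ℝ, 0 < η ∧ η ≤ 1 / 4 ∧
      ∀ θ δ : ℝ, 1 - η < θ → θ < 1 → 1 / 2 - η < δ → δ < 1 / 2 → ∃ D₀ : ℝ, 1 ≤ D₀ ∧ ∀ D, D₀ ≤ D →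
        ∀ FF : Filter ℝ, Hyp FF → ∀ α β : ℝ, 0 < α → α < β → β < 1 → ∀ Λ : ℝ, 0 < Λ →
          Rare FF α β (K₀ * Real.log (M + 1) / Λ ^ 2) (fun T => {t | Λ * (1 + ‖VV χ₁ δ D T t‖) <
            ‖VV χ₁ δ D T t * CT M (cG θ G) T (t + π * δ / Real.log T) - CT M (cG θ G) T (t - π * δ / Real.log T)‖}) := by
  sorry

/-- `|V|` in terms of `Rr` -/
theorem norm_VV {χ₁ : ℝ → ℝ} (δ D T t : ℝ) (hT : 1 < T) (hD : 1 ≤ D) :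
    ‖VV χ₁ δ D T t‖ = Real.exp (Rr χ₁ D T (t + π * δ / Real.log T) - Rr χ₁ D T (t - π * δ / Real.log T)) := by sorry

/-- (P4) moments of the differences of `Rr`, uniformly in `D`. -/
theorem P4 (RH : RiemannHypothesis) {χ₁ : ℝ → ℝ} (hχ : Win2 χ₁ 1) : ∃ K₁ : ℝ, 0 < K₁ ∧
    ∀ D : ℝ, 1 ≤ D → ∀ FF : Filter ℝ, Hyp FF → ∀ α β : ℝ, 0 < α → α < β → β < 1 → ∀ s Λ : ℝ, 0 < Λ →
      Rare FF α β (K₁ * (1 + Real.log (1 + |s|)) ^ 8 / Λ ^ 16)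
        (fun T => {t | Λ < |Rr χ₁ D T (t + 2 * π * s / Real.log T) - Rr χ₁ D T t|}) := by sorry

/-- (T1) If there is no zero in the window then `Re n(t)` is small. -/
theorem T1 (RH : RiemannHypothesis) {χ₁ : ℝ → ℝ} (hχ : Win2 χ₁ 1) {δ : ℝ} (h1 : 1 / 4 < δ) (h2 : δ < 1 / 2)
    {ε p : ℝ} (hε : 0 < ε) (hp : 0 < p) : ∃ D₀ : ℝ, 1 ≤ D₀ ∧ ∀ D, D₀ ≤ D → ∀ FF : Filter ℝ, Hyp FF →
      ∀ α β : ℝ, 0 < α → α < β → β < 1 →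
        Rare FF α β p (fun T => {t | (∀ i : PC.Z, π * δ / Real.log T ≤ |t - gZ i|) ∧ ε < |(nD χ₁ δ D T t).re|}) := by
  sorry

/-- (P1) `C(t - iy) = exp (-S) + small`. -/
theorem P1 : ∃ (K₂ : ℝ) (M₀ : ℕ), 0 < K₂ ∧ ∀ (M : ℕ) (G : ℕ → ℝ → ℝ), M₀ ≤ M → Cell0 M G → ∀ θ : ℝ, 1 / 2 < θ → θ < 1 →
    ∀ α β : ℝ, 0 < α → α < β → β < 1 →
      Rare atTop α β (K₂ / Real.log M) (fun T => {t | 0 ≤ -XX M (cG θ G) T t ∧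
        ‖CT M (hG (yy M) (cG θ G)) T t‖ < Real.exp (-XX M (cG θ G) T t) / 2}) := by sorry

/-- (K) sampling: `C(t - iy)` is controlled by the values `C(t + kδ)`, `|k| ≤ KK M`. -/
theorem Ksamp : ∃ (K₃ : ℝ) (M₀ : ℕ), 0 < K₃ ∧ ∀ (M : ℕ) (G : ℕ → ℝ → ℝ), M₀ ≤ M → Cell0 M G → ∀ θ δ : ℝ, 1 / 2 < θ → θ < 1 →
    1 / 4 < δ → δ < 1 / 2 → ∀ α β : ℝ, 0 < α → α < β → β < 1 →
      Rare atTop α β (K₃ / M) (fun T => {t | ∃ A : ℝ,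
        (∀ k : ℤ, |k| ≤ KK M → ‖CT M (cG θ G) T (t + 2 * π * (k * δ) / Real.log T)‖ ≤ A) ∧
        K₃ * Real.log M * A + 1 < ‖CT M (hG (yy M) (cG θ G)) T t‖}) := by sorry

/-- (PS) one scale: where the low band field is very negative, `|C|` is large. -/
theorem PS (RH : RiemannHypothesis) {χ₁ : ℝ → ℝ} (hχ : Win2 χ₁ 1) : ∃ (p : ℕ → ℝ) (M₀ : ℕ), Tendsto p atTop (𝓝 0) ∧
    ∀ (M : ℕ) (G : ℕ → ℝ → ℝ), M₀ ≤ M → Cell0 M G → ∃ η : ℝ, 0 < η ∧ η ≤ 1 / 4 ∧ ∀ θ : ℝ, 1 - η < θ → θ < 1 →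
      ∀ FF : Filter ℝ, Hyp FF → ∀ α β : ℝ, 0 < α → α < β → β < 1 →
        Rare FF α β (p M) (fun T => {t | lam M ≤ -XX M (cG θ G) T t ∧ ‖CT M (cG θ G) T t‖ < Real.exp (lam M / 5)}) := by
  sorry

/-- (MS) many scales: at most `t` the low band field is very negative for some scale. -/
theorem MS : ∃ (K₄ : ℝ) (M₀ : ℕ), 0 < K₄ ∧ ∀ (r : ℕ) (Ms : ℕ → ℕ) (Gs : ℕ → ℕ → ℝ → ℝ), 0 < r → (∀ i, M₀ ≤ Ms i) →
    (∀ i, Real.exp (Ms i) ≤ Ms (i + 1)) → (∀ i, Cell0 (Ms i) (Gs i)) → ∀ θ : ℝ, 1 / 2 < θ → θ < 1 →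
      ∀ α β : ℝ, 0 < α → α < β → β < 1 →
        Rare atTop α β (K₄ / r) (fun T => {t | ∀ i < r, -XX (Ms i) (cG θ (Gs i)) T t < lam (Ms i)}) := by sorry

/-- (Core) parity: if there is no zero of zeta in the window `(t - h, t + h)` then `a(t - h) a(t + h) < 0`, for most `t`. -/
theorem core (RH : RiemannHypothesis) {p δ₁ α β : ℝ} (hp : 0 < p) (hδ₁ : δ₁ < 1 / 2) (hα : 0 < α) (hαβ : α < β) (hβ : β < 1) :
    ∃ δ θ κ c : ℝ, δ₁ < δ ∧ δ < 1 / 2 ∧ 0 < θ ∧ θ < 1 ∧ 0 < κ ∧ 0 ≤ c ∧ ∀ FF : Filter ℝ, Hyp FF → ∀ᶠ T in FF,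
      ∃ (S : Finset ℕ) (d : ℕ → ℂ) (Bad : Set ℝ), 1 ∈ S ∧ (∀ n ∈ S, 1 ≤ n ∧ Real.log n ≤ θ * Real.log T) ∧
        κ ≤ ‖d 1‖ ∧ ∑ n ∈ S, ‖d n‖ ≤ Real.exp (c * Real.log T) ∧
        volume.real (Bad ∩ Icc (α * T) (β * T)) ≤ p * T ∧
        ∀ t ∈ Icc (α * T) (β * T), t ∉ Bad → (∀ i : PC.Z, π * δ / Real.log T ≤ |t - gZ i|) →
          H87.AH.aS S d 0 ((1 - δ) / (2 * δ) * Real.log T) (t - π * δ / Real.log T) *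
            H87.AH.aS S d 0 ((1 - δ) / (2 * δ) * Real.log T) (t + π * δ / Real.log T) < 0 := by sorry

/-- (L) + (E): the differences of the zeros are near `(1/2)ℤ`. -/
theorem lattice (RH : RiemannHypothesis) {FF : Filter ℝ} (hF : Hyp FF) {R ε : ℝ} (hR : 0 < R) (hε : 0 < ε) :
    Tendsto (fun T => (∑ᶠ q ∈ {q : ℂ × ℂ | q.1 ∈ PC.zerosUpTo T ∧ q.2 ∈ PC.zerosUpTo T ∧
        |(q.1.im - q.2.im) * Real.log T / (2 * π)| ≤ R ∧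
        ∀ k : ℤ, ε ≤ |(q.1.im - q.2.im) * Real.log T / (2 * π) - k / 2|},
        (analyticOrderNatAt riemannZeta q.1 : ℝ) * (analyticOrderNatAt riemannZeta q.2 : ℝ)) / PC.norm T) FF (𝓝 0) := by
  sorry

/-- The theorem. -/
theorem main (RH : RiemannHypothesis) {FF : Filter ℝ} (hF : Hyp FF) {a b : ℝ} (hab : a < b)
    (ha : ∀ k : ℤ, a ≠ k / 2) (hb : ∀ k : ℤ, b ≠ k / 2) :
    Tendsto (fun T => PC.pairCount T a b / PC.norm T) FF (𝓝 (predAH a b)) := by sorry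

end Pool.Agent.H68.AH.Iface
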