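import Mathlib

/-!
# MP_103a5c_AH, row AHRb: nodes (Vandermonde) and a pigeonhole principle

`nodes`: a real polynomial `∑_{l<n} g_l ξ^l` whose coefficients are not all small cannot be small at `n` of the nodes `1, …, m`.
PROOF.  For a set `s` of `n` nodes the Lagrange basis polynomials `b_{s,ξ}` (`Lagrange.basis s (fun k => (k : ℝ)) ξ`) have coefficients of absolute value at
most `B`, where `B ≥ 1` is the sum of all `|coeff (b_{s,ξ}) l|` over `s ⊆ {1..m}` (a finite set of `s`), `ξ ∈ s`, `l < n`, plus `1`.  Put `c = 1 / (2 n B)` (for `n = 0`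
there is nothing to prove since the hypothesis `∃ l < n` is false).
If the filter had `≥ n` elements, take `s` inside it with `s.card = n` (`Finset.exists_subset_card_eq`).  `f = ∑_{l<n} C (g l) X^l` has degree `< n`, so
`f = ∑_{ξ∈s} f(ξ) b_{s,ξ}` (`Lagrange.eq_interpolate_of_eval_eq` / `Lagrange.eq_interpolate`), hence for the `l` with `U ≤ |g l|`:
`U ≤ |g l| ≤ ∑_{ξ∈s} |f(ξ)| B ≤ n c U B = U/2`, so `U ≤ 0` hence `U = 0`, but then `|f(ξ)| < c·0` is impossible (and `n ≥ 1` since `l < n`).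

`pigeon`: `∑_ξ volume (B ξ) = ∫ ∑_ξ 1_{B ξ} ≤ n volume I`, so one of the `m` terms is at most the average.
(`∑ ξ, volume.real (B ξ) = ∫ t in I, ∑ ξ, indicator (B ξ) 1 t`: `integral_finset_sum`, `integral_indicator_one`; `∑ ξ, indicator (B ξ) 1 t = card {ξ | t ∈ B ξ} ≤ n`.)
-/

open MeasureTheory Set Filter Topology

namespace Pool.Agent.H68.AH

theorem nodes (n m : ℕ) : ∃ c : ℝ, 0 < c ∧ ∀ (g : ℕ → ℝ) (U : ℝ), 0 ≤ U → (∃ l < n, U ≤ |g l|) →
    ((Finset.Icc 1 m).filter (fun ξ : ℕ => |∑ l ∈ Finset.range n, g l * (ξ : ℝ) ^ l| < c * U)).card < n := by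
  rcases Nat.eq_zero_or_pos n with rfl | hn
  · exact ⟨1, one_pos, fun g U _ h => absurd h (by rintro ⟨l, hl, _⟩; omega)⟩
  obtain ⟨v, hv⟩ : ∃ v : ℕ → ℝ, v = fun k : ℕ => (k : ℝ) := ⟨_, rfl⟩
  obtain ⟨Bs, hBs⟩ : ∃ Bs : Finset ℕ → ℝ, Bs = fun s => ∑ ξ ∈ s, ∑ l ∈ Finset.range n,
    |(Lagrange.basis s v ξ).coeff l| := ⟨_, rfl⟩
  have hBs0 : ∀ s, 0 ≤ Bs s := fun s => by
    rw [hBs]
    exact Finset.sum_nonneg fun i _ => Finset.sum_nonneg fun l _ => abs_nonneg _
  obtain ⟨B, hB⟩ : ∃ B : ℝ, B = 1 + ∑ s ∈ Finset.powersetCard n (Finset.Icc 1 m), Bs s := ⟨_, rfl⟩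
  have hB1 : 1 ≤ B := by
    rw [hB]
    have := Finset.sum_nonneg fun s (_ : s ∈ Finset.powersetCard n (Finset.Icc 1 m)) => hBs0 s
    linarith
  have hn' : (0 : ℝ) < n := by exact_mod_cast hn
  refine ⟨1 / (2 * n * B), by positivity, fun g U hU hl => ?_⟩
  obtain ⟨l, hl, hgl⟩ := hl
  by_contra hcon
  rw [not_lt] at hcon
  obtain ⟨s, hs, hsc⟩ := Finset.exists_subset_card_eq hcon
  have hsm : s ∈ Finset.powersetCard n (Finset.Icc 1 m) :=
    Finset.mem_powersetCard.2 ⟨hs.trans (Finset.filter_subset _ _), hsc⟩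
  obtain ⟨f, hf⟩ : ∃ f : Polynomial ℝ, f = ∑ k ∈ Finset.range n, Polynomial.C (g k) * Polynomial.X ^ k := ⟨_, rfl⟩
  have hfc : ∀ k, k < n → f.coeff k = g k := by
    intro k hk
    rw [hf, Polynomial.finsetSum_coeff]
    simp only [Polynomial.coeff_C_mul, Polynomial.coeff_X_pow, mul_ite, mul_one, mul_zero]
    rw [Finset.sum_ite_eq, if_pos (Finset.mem_range.2 hk)]
  have hfd : f.degree < (s.card : WithBot ℕ) := by
    rw [hsc, Polynomial.degree_lt_iff_coeff_zero]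
    intro k hk
    rw [hf, Polynomial.finsetSum_coeff]
    refine Finset.sum_eq_zero fun j hj => ?_
    rw [Finset.mem_range] at hj
    rw [Polynomial.coeff_C_mul, Polynomial.coeff_X_pow, if_neg (by omega), mul_zero]
  have hfe : ∀ ξ : ℕ, f.eval (v ξ) = ∑ l ∈ Finset.range n, g l * (ξ : ℝ) ^ l := by
    intro ξ
    rw [hf, Polynomial.eval_finsetSum]
    refine Finset.sum_congr rfl fun k _ => ?_
    rw [Polynomial.eval_mul, Polynomial.eval_C, Polynomial.eval_pow, Polynomial.eval_X, hv]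
  have hinj : Set.InjOn v s := by
    intro a _ b _ hab
    rw [hv] at hab
    exact Nat.cast_injective hab
  have hint := Lagrange.eq_interpolate_of_eval_eq (fun ξ => f.eval (v ξ)) hinj hfd (fun i _ => rfl)
  have hgl2 : g l = ∑ ξ ∈ s, f.eval (v ξ) * (Lagrange.basis s v ξ).coeff l := by
    rw [← hfc l hl]
    conv_lhs => rw [hint]
    rw [Lagrange.interpolate_apply, Polynomial.finsetSum_coeff]
    refine Finset.sum_congr rfl fun ξ _ => ?_
    rw [Polynomial.coeff_C_mul]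
  have hsmall : ∀ ξ ∈ s, |f.eval (v ξ)| < 1 / (2 * n * B) * U := by
    intro ξ hξ
    have := (Finset.mem_filter.1 (hs hξ)).2
    rw [hfe]
    exact this
  have hcb : ∀ ξ ∈ s, |(Lagrange.basis s v ξ).coeff l| ≤ B := by
    intro ξ hξ
    have h1 : |(Lagrange.basis s v ξ).coeff l| ≤ ∑ l ∈ Finset.range n, |(Lagrange.basis s v ξ).coeff l| :=
      Finset.single_le_sum (f := fun l => |(Lagrange.basis s v ξ).coeff l|) (fun _ _ => abs_nonneg _)
        (Finset.mem_range.2 hl)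
    have h2 : ∑ l ∈ Finset.range n, |(Lagrange.basis s v ξ).coeff l| ≤ Bs s := by
      rw [hBs]
      exact Finset.single_le_sum (f := fun ξ => ∑ l ∈ Finset.range n, |(Lagrange.basis s v ξ).coeff l|)
        (fun _ _ => Finset.sum_nonneg fun _ _ => abs_nonneg _) hξ
    have h3 : Bs s ≤ ∑ s ∈ Finset.powersetCard n (Finset.Icc 1 m), Bs s :=
      Finset.single_le_sum (f := Bs) (fun s _ => hBs0 s) hsm
    rw [hB]
    linarith
  have hne : s.Nonempty := by
    rw [← Finset.card_pos, hsc]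
    exact hn
  have hle : |g l| ≤ U / 2 := by
    rw [hgl2]
    calc |∑ ξ ∈ s, f.eval (v ξ) * (Lagrange.basis s v ξ).coeff l|
        ≤ ∑ ξ ∈ s, |f.eval (v ξ) * (Lagrange.basis s v ξ).coeff l| := Finset.abs_sum_le_sum_abs _ _
      _ ≤ ∑ ξ ∈ s, (1 / (2 * n * B) * U) * B := by
          refine Finset.sum_le_sum fun ξ hξ => ?_
          rw [abs_mul]
          exact mul_le_mul (hsmall ξ hξ).le (hcb ξ hξ) (abs_nonneg _) (by positivity)
      _ = U / 2 := by
          rw [Finset.sum_const, hsc, nsmul_eq_mul]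
          have : B ≠ 0 := by positivity
          field_simp
  have hU0 : U = 0 := by linarith
  obtain ⟨ξ, hξ⟩ := hne
  have := hsmall ξ hξ
  rw [hU0, mul_zero] at this
  exact absurd this (not_lt.2 (abs_nonneg _))

open Classical in
theorem pigeon {I : Set ℝ} (hI : MeasurableSet I) (hI' : volume I ≠ ⊤) {m : ℕ} (hm : 0 < m) (n : ℕ) (B : ℕ → Set ℝ)
    (hB : ∀ ξ, MeasurableSet (B ξ)) (hBI : ∀ ξ, B ξ ⊆ I) (h : ∀ t, ((Finset.Icc 1 m).filter (fun ξ => t ∈ B ξ)).card ≤ n) :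
    ∃ ξ ∈ Finset.Icc 1 m, volume.real (B ξ) ≤ n / m * volume.real I := by
  by_contra hcon
  push Not at hcon
  obtain ⟨μ, hμ⟩ : ∃ μ : Measure ℝ, μ = volume.restrict I := ⟨_, rfl⟩
  have : IsFiniteMeasure μ := by
    rw [hμ]
    exact ⟨by rw [Measure.restrict_apply_univ]; exact lt_top_iff_ne_top.2 hI'⟩
  have hμB : ∀ ξ, μ.real (B ξ) = volume.real (B ξ) := by
    intro ξ
    rw [hμ, measureReal_restrict_apply (hB ξ), inter_eq_left.2 (hBI ξ)]
  have hμu : μ.real univ = volume.real I := by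
    rw [hμ, measureReal_restrict_apply MeasurableSet.univ, univ_inter]
  have hi : ∀ ξ, Integrable ((B ξ).indicator (1 : ℝ → ℝ)) μ := fun ξ =>
    (integrable_const (1 : ℝ)).indicator (hB ξ)
  have h1 : ∑ ξ ∈ Finset.Icc 1 m, volume.real (B ξ) = ∫ t, ∑ ξ ∈ Finset.Icc 1 m, (B ξ).indicator (1 : ℝ → ℝ) t ∂μ := by
    rw [integral_finsetSum _ fun ξ _ => hi ξ]
    refine Finset.sum_congr rfl fun ξ _ => ?_
    rw [integral_indicator_one (hB ξ), hμB]
  have h2 : ∫ t, ∑ ξ ∈ Finset.Icc 1 m, (B ξ).indicator (1 : ℝ → ℝ) t ∂μ ≤ n * volume.real I := by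
    have h3 : ∫ t, ∑ ξ ∈ Finset.Icc 1 m, (B ξ).indicator (1 : ℝ → ℝ) t ∂μ ≤ ∫ _, (n : ℝ) ∂μ := by
      refine integral_mono (integrable_finsetSum _ fun ξ _ => hi ξ) (integrable_const _) fun t => ?_
      have h4 : ∑ ξ ∈ Finset.Icc 1 m, (B ξ).indicator (1 : ℝ → ℝ) t =
          (((Finset.Icc 1 m).filter (fun ξ => t ∈ B ξ)).card : ℝ) := by
        rw [Finset.card_filter]
        push_cast
        refine Finset.sum_congr rfl fun ξ _ => ?_
        by_cases ht : t ∈ B ξ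
        · rw [indicator_of_mem ht, if_pos ht]; rfl
        · rw [indicator_of_notMem ht, if_neg ht]
      show ∑ ξ ∈ Finset.Icc 1 m, (B ξ).indicator (1 : ℝ → ℝ) t ≤ n
      rw [h4]
      exact_mod_cast h t
    rw [integral_const, hμu, smul_eq_mul, mul_comm] at h3
    exact h3
  have hm' : (0 : ℝ) < m := by exact_mod_cast hm
  have h5 : ∑ ξ ∈ Finset.Icc 1 m, (n / m * volume.real I : ℝ) < ∑ ξ ∈ Finset.Icc 1 m, volume.real (B ξ) :=
    Finset.sum_lt_sum_of_nonempty ⟨1, Finset.mem_Icc.2 ⟨le_rfl, hm⟩⟩ hcon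
  rw [Finset.sum_const, Nat.card_Icc, nsmul_eq_mul, Nat.add_sub_cancel] at h5
  have h6 : (m : ℝ) * (n / m * volume.real I) = n * volume.real I := by
    field_simp
  linarith

end Pool.Agent.H68.AH
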